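import Pool.Agent.Helper48.KV.GoalsG1

/-!
# PROJECT KV (MP_66be51_an), section G, goal FREE: the quadratic part of the monotonicity
-/

open MeasureTheory Set Filter Topology

noncomputable section

namespace Pool.Agent.Helper49.KV

open Pool.Agent.Helper33.KV Pool.Agent.Helper41.KV Pool.Agent.Helper48.KV

theorem fr_int {w g : ℝ → ℝ} {C : ℝ} (hw : Continuous w) (hb : ∀ y, |w y| ≤ C)
    (hg : MemLp g 2) : Integrable (fun y => w y * g y ^ 2) := by
  have hi := hg.integrable_sq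
  refine (hi.const_mul C).mono' (hw.aestronglyMeasurable.mul hi.aestronglyMeasurable) ?_
  apply Filter.Eventually.of_forall
  intro y
  rw [Real.norm_eq_abs, abs_mul, abs_of_nonneg (sq_nonneg (g y))]
  exact mul_le_mul_of_nonneg_right (hb y) (sq_nonneg _)

theorem fr_exp_bd {K : ℝ} (hK : 0 < K) (y : ℝ) :
    |y| * Real.exp (-(|y| / K)) ≤ K ∧ y ^ 2 * Real.exp (-(|y| / K)) ≤ 2 * K ^ 2 := by
  have hy : 0 ≤ |y| / K := by positivity
  have h1 : |y| / K ≤ Real.exp (|y| / K) := by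
    have := Real.add_one_le_exp (|y| / K)
    linarith
  have h2 : (|y| / K) ^ 2 / 2 ≤ Real.exp (|y| / K) := by
    have := Real.quadratic_le_exp_of_nonneg hy
    linarith
  have he : Real.exp (-(|y| / K)) = (Real.exp (|y| / K))⁻¹ := Real.exp_neg _
  have hp := Real.exp_pos (|y| / K)
  constructor
  · rw [he, ← div_eq_mul_inv, div_le_iff₀ hp]
    rw [div_le_iff₀ hK] at h1
    linarith
  · rw [he, ← div_eq_mul_inv, div_le_iff₀ hp]
    have h3 : (|y| / K) ^ 2 / 2 = y ^ 2 / (2 * K ^ 2) := by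
      rw [div_pow, sq_abs]
      field_simp
    rw [h3, div_le_iff₀ (by positivity)] at h2
    linarith

theorem free (h1 : S_WT0) (h2 : S_PW) (h3 : S_INTERP) : S_FREE := by
  intro α ha0 ha1 K hK m
  have hK0 : (0 : ℝ) < K := by linarith
  have hK1 : (1 : ℝ) ≤ K := by linarith
  obtain ⟨ρ1, hρ1, hρ1', H1⟩ := h2 K hK1 (m + 1) (1 / 1000) (by norm_num)
  obtain ⟨ρ2, hρ2, hρ2', H2⟩ := h3 K hK1 (m + 1) (1 / 100) (by norm_num)
  refine ⟨min (min ρ1 ρ2) (1 / 45), by positivity, ?_, ?_⟩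
  · exact le_trans (min_le_left _ _) (le_trans (min_le_left _ _) hρ1')
  intro ρ hρ hρle ε hε
  have hle1 : ρ ≤ ρ1 := hρle.trans ((min_le_left _ _).trans (min_le_left _ _))
  have hle2 : ρ ≤ ρ2 := hρle.trans ((min_le_left _ _).trans (min_le_right _ _))
  have hle3 : ρ ≤ 1 / 45 := hρle.trans (min_le_right _ _)
  have hρ11 : ρ ≤ 1 := by linarith
  obtain ⟨cw, cp, hwt, -, -, -, -, hph, hexp⟩ := h1 K ρ hK0 hρ
  have hexp' := hexp hρ11
  -- continuity
  have cwt : Continuous (wt K ρ) := cw.continuous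
  have cph : Continuous (ph1 K ρ) := cp.continuous
  have cph3 : Continuous (ph3 K ρ) := by
    have e : ph3 K ρ = fun y => ph1 K ρ y * (1 - 6 * wt K ρ y + 6 * wt K ρ y ^ 2) / K ^ 2 := rfl
    rw [e]
    fun_prop
  -- square integrable functions
  have g0 : MemLp ε 2 := by
    have := hε.2 0
    rwa [iteratedDeriv_zero] at this
  have g1 : MemLp (deriv ε) 2 := by
    have := hε.2 1
    rwa [iteratedDeriv_one] at this
  have g2 : MemLp (deriv (deriv ε)) 2 := by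
    have := hε.2 2
    rwa [iteratedDeriv_succ, iteratedDeriv_one] at this
  -- bounds on weights
  have bph : ∀ y, |ph1 K ρ y| ≤ 1 := by
    intro y
    rw [abs_of_pos (hph y).1]
    refine (hph y).2.1.trans ?_
    rw [div_le_one hK0]
    linarith [(hwt y).2]
  have bwt : ∀ y, |wt K ρ y| ≤ 1 := by
    intro y
    rw [abs_of_pos (hwt y).1]
    exact (hwt y).2.le
  have bph3 : ∀ y, |ph3 K ρ y| ≤ 1 := by
    intro y
    refine (hph y).2.2.2.trans ?_
    rw [div_le_one (by positivity)]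
    have := bph y
    rw [abs_of_pos (hph y).1] at this
    nlinarith
  have byph : ∀ y, |y * ph1 K ρ y| ≤ 1 / ρ := by
    intro y
    rw [abs_mul, abs_of_pos (hph y).1]
    calc |y| * ph1 K ρ y ≤ |y| * (Real.exp (-(|y| / K)) / (K * ρ)) :=
          mul_le_mul_of_nonneg_left (hexp' y) (abs_nonneg _)
      _ = (|y| * Real.exp (-(|y| / K))) / (K * ρ) := by ring
      _ ≤ K / (K * ρ) := by
          apply div_le_div_of_nonneg_right (fr_exp_bd hK0 y).1 (by positivity)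
      _ = 1 / ρ := by field_simp
  have by2ph : ∀ y, |y ^ 2 * ph1 K ρ y| ≤ 2 * K / ρ := by
    intro y
    rw [abs_mul, abs_of_pos (hph y).1, abs_of_nonneg (sq_nonneg y)]
    calc y ^ 2 * ph1 K ρ y ≤ y ^ 2 * (Real.exp (-(|y| / K)) / (K * ρ)) :=
          mul_le_mul_of_nonneg_left (hexp' y) (sq_nonneg _)
      _ = (y ^ 2 * Real.exp (-(|y| / K))) / (K * ρ) := by ring
      _ ≤ (2 * K ^ 2) / (K * ρ) := by
          apply div_le_div_of_nonneg_right (fr_exp_bd hK0 y).2 (by positivity)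
      _ = 2 * K / ρ := by field_simp
  -- integrability
  have iφ1 : Integrable (fun y => wt K ρ y * deriv ε y ^ 2) := fr_int cwt bwt g1
  have ip2 : Integrable (fun y => ph1 K ρ y * deriv (deriv ε) y ^ 2) := fr_int cph bph g2
  have ip1 : Integrable (fun y => ph1 K ρ y * deriv ε y ^ 2) := fr_int cph bph g1
  have ip0 : Integrable (fun y => ph1 K ρ y * ε y ^ 2) := fr_int cph bph g0
  have i0 : Integrable (fun y => ε y ^ 2) := g0.integrable_sq
  have iy1 : Integrable (fun y => (y * ph1 K ρ y) * deriv ε y ^ 2) :=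
    fr_int (continuous_id.mul cph) byph g1
  have iy0 : Integrable (fun y => (y * ph1 K ρ y) * ε y ^ 2) :=
    fr_int (continuous_id.mul cph) byph g0
  have i31 : Integrable (fun y => ph3 K ρ y * deriv ε y ^ 2) := fr_int cph3 bph3 g1
  have i30 : Integrable (fun y => ph3 K ρ y * ε y ^ 2) := fr_int cph3 bph3 g0
  have iyy1 : Integrable (fun y => (y ^ 2 * ph1 K ρ y) * deriv ε y ^ 2) :=
    fr_int ((continuous_id.pow 2).mul cph) by2ph g1
  have iq1 : Integrable (fun y => ρ ^ 2 * (4 + y ^ 2) * ph1 K ρ y * deriv ε y ^ 2) := by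
    refine ((ip1.const_mul (4 * ρ ^ 2)).add (iyy1.const_mul (ρ ^ 2))).congr ?_
    apply Filter.Eventually.of_forall
    intro y
    show 4 * ρ ^ 2 * (ph1 K ρ y * deriv ε y ^ 2) + ρ ^ 2 * ((y ^ 2 * ph1 K ρ y) * deriv ε y ^ 2) = _
    ring
  have ifree : Integrable (freeInt α K ρ ε) := by
    have hh := (((((ip2.const_mul (-3)).add (iφ1.const_mul (2 * ((2 * α + 1) * ρ)))).add
      (ip1.const_mul (-(4 + 2 * α * K * ρ)))).add (iy1.const_mul (-((2 * α + 1) * ρ)))).add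
      i31).add (((ip0.const_mul (-(1 + 2 * α * K * ρ))).add
        (iy0.const_mul (-((2 * α + 1) * ρ)))).add i30)
    refine hh.congr ?_
    apply Filter.Eventually.of_forall
    intro y
    show ((((-3 * (ph1 K ρ y * deriv (deriv ε) y ^ 2)
      + 2 * ((2 * α + 1) * ρ) * (wt K ρ y * deriv ε y ^ 2))
      + -(4 + 2 * α * K * ρ) * (ph1 K ρ y * deriv ε y ^ 2))
      + -((2 * α + 1) * ρ) * ((y * ph1 K ρ y) * deriv ε y ^ 2))
      + ph3 K ρ y * deriv ε y ^ 2)
      + ((-(1 + 2 * α * K * ρ) * (ph1 K ρ y * ε y ^ 2)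
      + -((2 * α + 1) * ρ) * ((y * ph1 K ρ y) * ε y ^ 2)) + ph3 K ρ y * ε y ^ 2) = _
    unfold freeInt
    ring
  refine ⟨ifree, ?_⟩
  have hint := H2 ρ hρ hle2 ε hε
  -- pointwise bound
  have hpt : ∀ y, freeInt α K ρ ε y ≤
      (-3) * (ph1 K ρ y * deriv (deriv ε) y ^ 2) + (-3) * (ph1 K ρ y * deriv ε y ^ 2)
        + 9 * (ρ ^ 2 * (4 + y ^ 2) * ph1 K ρ y * deriv ε y ^ 2)
        + (-1 + 1 / 64 + 1 / 4 + 36 / 1000) * (ph1 K ρ y * ε y ^ 2)
        + 6 * ρ * (wt K ρ y * deriv ε y ^ 2) + 36 * ρ ^ (m + 1) * ε y ^ 2 := by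
    intro y
    have p0 := (hph y).1
    have q3 : ph3 K ρ y ≤ ph1 K ρ y / 64 := by
      refine (le_abs_self _).trans ((hph y).2.2.2.trans ?_)
      apply div_le_div_of_nonneg_left p0.le (by norm_num)
      nlinarith
    have ha : (2 * α + 1) * ρ ≤ 3 * ρ := by nlinarith
    have ha' : 0 ≤ (2 * α + 1) * ρ := by positivity
    have hb : 0 ≤ 2 * α * K * ρ := by positivity
    have hay : -((2 * α + 1) * ρ * y) ≤ 1 / 4 + 9 * (ρ ^ 2 * (4 + y ^ 2)) := by
      have h5 : -((2 * α + 1) * ρ * y) ≤ 1 / 4 + ((2 * α + 1) * ρ * y) ^ 2 := by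
        nlinarith [sq_nonneg ((2 * α + 1) * ρ * y + 1 / 2)]
      have h6 : ((2 * α + 1) * ρ * y) ^ 2 ≤ (3 * ρ) ^ 2 * y ^ 2 := by
        rw [mul_pow]
        apply mul_le_mul_of_nonneg_right _ (sq_nonneg _)
        exact pow_le_pow_left₀ ha' ha 2
      nlinarith [sq_nonneg ρ, sq_nonneg y]
    have hw := (hwt y).1
    have hpw := H1 ρ hρ hle1 y
    have hpw2 : ρ ^ 2 * (4 + y ^ 2) * ph1 K ρ y ≤ 4 / 1000 * ph1 K ρ y + 4 * ρ ^ (m + 1) := by
      have h7 : ρ ^ 2 * (4 + y ^ 2) * ph1 K ρ y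
          ≤ 4 * (ρ ^ 2 * (1 + y ^ 2) ^ 2 * ph1 K ρ y) := by
        have h8 : 4 + y ^ 2 ≤ 4 * (1 + y ^ 2) ^ 2 := by nlinarith [sq_nonneg y, sq_nonneg (y ^ 2)]
        have h9 : 0 ≤ ρ ^ 2 * ph1 K ρ y := by positivity
        nlinarith [mul_le_mul_of_nonneg_left h8 h9]
      linarith
    -- coefficient of `ε'^2`
    have c1 : 2 * ((2 * α + 1) * ρ) * wt K ρ y
        - ph1 K ρ y * (4 + (2 * α + 1) * ρ * y + 2 * α * K * ρ) + ph3 K ρ y
        ≤ 6 * ρ * wt K ρ y + (-3) * ph1 K ρ y + 9 * (ρ ^ 2 * (4 + y ^ 2) * ph1 K ρ y) := by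
      have k1 : 2 * ((2 * α + 1) * ρ) * wt K ρ y ≤ 6 * ρ * wt K ρ y := by nlinarith
      have k2 := mul_le_mul_of_nonneg_left hay p0.le
      have k3 : 0 ≤ ph1 K ρ y * (2 * α * K * ρ) := mul_nonneg p0.le hb
      nlinarith
    have c0 : -(ph1 K ρ y * (1 + (2 * α + 1) * ρ * y + 2 * α * K * ρ)) + ph3 K ρ y
        ≤ (-1 + 1 / 64 + 1 / 4 + 36 / 1000) * ph1 K ρ y + 36 * ρ ^ (m + 1) := by
      have k2 := mul_le_mul_of_nonneg_left hay p0.le
      have k3 : 0 ≤ ph1 K ρ y * (2 * α * K * ρ) := mul_nonneg p0.le hb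
      nlinarith
    have d1 := mul_le_mul_of_nonneg_right c1 (sq_nonneg (deriv ε y))
    have d0 := mul_le_mul_of_nonneg_right c0 (sq_nonneg (ε y))
    unfold freeInt
    nlinarith
  have hR : Integrable (fun y => (-3) * (ph1 K ρ y * deriv (deriv ε) y ^ 2)
        + (-3) * (ph1 K ρ y * deriv ε y ^ 2)
        + 9 * (ρ ^ 2 * (4 + y ^ 2) * ph1 K ρ y * deriv ε y ^ 2)
        + (-1 + 1 / 64 + 1 / 4 + 36 / 1000) * (ph1 K ρ y * ε y ^ 2)
        + 6 * ρ * (wt K ρ y * deriv ε y ^ 2) + 36 * ρ ^ (m + 1) * ε y ^ 2) :=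
    (((((ip2.const_mul _).add (ip1.const_mul _)).add (iq1.const_mul _)).add
      (ip0.const_mul _)).add (iφ1.const_mul _)).add (i0.const_mul _)
  have hmono := integral_mono ifree hR hpt
  have hsum : (∫ y, ((-3) * (ph1 K ρ y * deriv (deriv ε) y ^ 2)
        + (-3) * (ph1 K ρ y * deriv ε y ^ 2)
        + 9 * (ρ ^ 2 * (4 + y ^ 2) * ph1 K ρ y * deriv ε y ^ 2)
        + (-1 + 1 / 64 + 1 / 4 + 36 / 1000) * (ph1 K ρ y * ε y ^ 2)
        + 6 * ρ * (wt K ρ y * deriv ε y ^ 2) + 36 * ρ ^ (m + 1) * ε y ^ 2))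
      = (-3) * (∫ y, ph1 K ρ y * deriv (deriv ε) y ^ 2) + (-3) * (∫ y, ph1 K ρ y * deriv ε y ^ 2)
        + 9 * (∫ y, ρ ^ 2 * (4 + y ^ 2) * ph1 K ρ y * deriv ε y ^ 2)
        + (-1 + 1 / 64 + 1 / 4 + 36 / 1000) * (∫ y, ph1 K ρ y * ε y ^ 2)
        + 6 * ρ * (∫ y, wt K ρ y * deriv ε y ^ 2) + 36 * ρ ^ (m + 1) * ∫ y, ε y ^ 2 := by
    rw [integral_add, integral_add, integral_add, integral_add, integral_add,
      integral_const_mul, integral_const_mul, integral_const_mul, integral_const_mul,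
      integral_const_mul, integral_const_mul]
    · exact ip2.const_mul _
    · exact ip1.const_mul _
    · exact (ip2.const_mul _).add (ip1.const_mul _)
    · exact iq1.const_mul _
    · exact ((ip2.const_mul _).add (ip1.const_mul _)).add (iq1.const_mul _)
    · exact ip0.const_mul _
    · exact (((ip2.const_mul _).add (ip1.const_mul _)).add (iq1.const_mul _)).add
        (ip0.const_mul _)
    · exact iφ1.const_mul _
    · exact ((((ip2.const_mul _).add (ip1.const_mul _)).add (iq1.const_mul _)).add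
        (ip0.const_mul _)).add (iφ1.const_mul _)
    · exact i0.const_mul _
  have hsplit : (∫ y, ph1 K ρ y * (deriv (deriv ε) y ^ 2 + ε y ^ 2))
      = (∫ y, ph1 K ρ y * deriv (deriv ε) y ^ 2) + ∫ y, ph1 K ρ y * ε y ^ 2 := by
    rw [← integral_add ip2 ip0]
    congr 1
    funext y
    ring
  have n2 : 0 ≤ ∫ y, ph1 K ρ y * deriv (deriv ε) y ^ 2 :=
    integral_nonneg (fun y => mul_nonneg (hph y).1.le (sq_nonneg _))
  have n0 : 0 ≤ ∫ y, ph1 K ρ y * ε y ^ 2 :=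
    integral_nonneg (fun y => mul_nonneg (hph y).1.le (sq_nonneg _))
  have nε : 0 ≤ ∫ y, ε y ^ 2 := integral_nonneg (fun y => sq_nonneg _)
  have hpow : 45 * ρ ^ (m + 1) * (∫ y, ε y ^ 2) ≤ ρ ^ m * ∫ y, ε y ^ 2 := by
    apply mul_le_mul_of_nonneg_right _ nε
    rw [pow_succ]
    have : 0 ≤ ρ ^ m := by positivity
    nlinarith
  rw [hsum] at hmono
  rw [hsplit] at hint
  linarith

end Pool.Agent.Helper49.KV
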