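import Pool.Agent.Helper41.KV.GoalsD

/-!
# Project KV, section D, goal CURV: calculus of the reference curve
-/

namespace Pool.Agent.Helper41.KV

open Real MeasureTheory Pool.Agent.Helper33.KV

theorem cv_sig_pos {α t : ℝ} (h0 : 0 < α) (ht : 0 < t) : 0 < sig α t := by
  unfold sig
  positivity

theorem cv_sig_hd {α t : ℝ} (h0 : 0 < α) (ht : 0 < t) :
    HasDerivAt (sig α) (1 / lam α t ^ 2) t := by
  have hp : 0 < 4 * α + 3 := by positivity
  have hpt : 0 < (4 * α + 3) * t := by positivity
  have h1 : HasDerivAt (fun t => (4 * α + 3) * t) (4 * α + 3) t := by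
    have := (hasDerivAt_id' t).const_mul (4 * α + 3)
    rw [mul_one] at this
    exact this
  have h2 := h1.rpow_const (p := 1 / (4 * α + 3)) (Or.inl hpt.ne')
  have e : sig α = fun t => ((4 * α + 3) * t) ^ (1 / (4 * α + 3)) := rfl
  rw [e]
  refine h2.congr_deriv ?_
  have e2 : lam α t ^ 2 = ((4 * α + 3) * t) ^ (-(1 / (4 * α + 3) - 1)) := by
    unfold lam sig
    rw [← Real.rpow_natCast, ← Real.rpow_mul hpt.le, ← Real.rpow_mul hpt.le]
    congr 1
    field_simp
    push_cast
    ring
  rw [e2, Real.rpow_neg hpt.le]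
  field_simp

theorem cv_lam_eq {α t : ℝ} (h0 : 0 < α) (ht : 0 < t) : lam α t = sig α t * rho α t := by
  have hs := cv_sig_pos h0 ht
  unfold lam rho
  rw [Real.rpow_add hs, Real.rpow_one]
  ring

theorem cv_log_bound {c : ℝ} (hc : 0 < c) (n : ℕ) {L : ℝ} (hL : 0 ≤ L) :
    (1 + L) ^ n ≤ (((n : ℝ) + 1) / c) ^ n * exp c * exp (c * L) := by
  have hm : (0 : ℝ) < (n : ℝ) + 1 := by positivity
  have h1 : 1 + L ≤ (((n : ℝ) + 1) / c) * exp (c / ((n : ℝ) + 1) * (1 + L)) := by
    have h2 := Real.add_one_le_exp (c / ((n : ℝ) + 1) * (1 + L))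
    have h3 : c / ((n : ℝ) + 1) * (1 + L) ≤ exp (c / ((n : ℝ) + 1) * (1 + L)) := by linarith
    calc 1 + L = (((n : ℝ) + 1) / c) * (c / ((n : ℝ) + 1) * (1 + L)) := by
          field_simp
      _ ≤ _ := mul_le_mul_of_nonneg_left h3 (by positivity)
  calc (1 + L) ^ n ≤ ((((n : ℝ) + 1) / c) * exp (c / ((n : ℝ) + 1) * (1 + L))) ^ n :=
        pow_le_pow_left₀ (by positivity) h1 n
    _ = (((n : ℝ) + 1) / c) ^ n * exp ((n : ℝ) * (c / ((n : ℝ) + 1) * (1 + L))) := by
        rw [mul_pow, ← Real.exp_nat_mul]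
    _ ≤ (((n : ℝ) + 1) / c) ^ n * exp (c + c * L) := by
        apply mul_le_mul_of_nonneg_left _ (by positivity)
        apply Real.exp_le_exp.mpr
        have : (n : ℝ) * (c / ((n : ℝ) + 1) * (1 + L))
            = ((n : ℝ) / ((n : ℝ) + 1)) * (c * (1 + L)) := by
          field_simp
        rw [this]
        have h5 : (n : ℝ) / ((n : ℝ) + 1) ≤ 1 := by
          rw [div_le_one hm]
          linarith
        have h6 : 0 ≤ c * (1 + L) := by positivity
        nlinarith
    _ = _ := by
        rw [Real.exp_add]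
        ring

theorem thm_CURV : S_CURV := by
  intro α h0 h1
  have hp : 0 < 4 * α + 3 := by positivity
  have cs : ContDiffOn ℝ (⊤ : ℕ∞) (sig α) (Set.Ioi 0) := by
    intro t ht
    have hpt : (4 * α + 3) * t ≠ 0 := by
      have : (0 : ℝ) < t := ht
      positivity
    apply ContDiffAt.contDiffWithinAt
    have : ContDiffAt ℝ (⊤ : ℕ∞) (fun t : ℝ => (4 * α + 3) * t) t :=
      contDiffAt_const.mul contDiffAt_id
    exact this.rpow_const_of_ne hpt
  have hsp : ∀ t ∈ Set.Ioi (0 : ℝ), sig α t ≠ 0 := fun t ht => (cv_sig_pos h0 ht).ne'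
  refine ⟨?_, cs, ?_, ?_, ?_, ?_⟩
  · intro t ht
    have hpt : 0 < (4 * α + 3) * t := by positivity
    have hs := cv_sig_pos h0 ht
    have hl : 0 < lam α t := Real.rpow_pos_of_pos hs _
    have hr : 0 < rho α t := Real.rpow_pos_of_pos hs _
    have hle := cv_lam_eq h0 ht
    have hsd := cv_sig_hd h0 ht
    refine ⟨hs, hl, hr, hle, ?_, ?_, hsd, ?_, ?_, ?_⟩
    · unfold sig
      rw [← Real.rpow_mul hpt.le]
      rw [one_div, inv_mul_cancel₀ hp.ne', Real.rpow_one]
    · unfold lam sig
      rw [← Real.rpow_natCast, ← Real.rpow_mul hpt.le, ← Real.rpow_mul hpt.le,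
        ← Real.rpow_add hpt]
      have e : 1 / (4 * α + 3) * (2 * α + 1) * ((2 : ℕ) : ℝ) + 1 / (4 * α + 3) = 1 := by
        push_cast
        field_simp
        ring
      rw [e, Real.rpow_one]
    · have h := hsd.rpow_const (p := 2 * α + 1) (Or.inl hs.ne')
      have e : lam α = fun t => sig α t ^ (2 * α + 1) := rfl
      rw [e]
      refine h.congr_deriv ?_
      have e2 : sig α t ^ (2 * α + 1 - 1) = rho α t := by
        unfold rho
        congr 1
        ring
      rw [e2]
      show 1 / lam α t ^ 2 * (2 * α + 1) * rho α t = (2 * α + 1) * rho α t / lam α t ^ 2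
      ring
    · have h := hsd.rpow_const (p := 2 * α) (Or.inl hs.ne')
      have e : rho α = fun t => sig α t ^ (2 * α) := rfl
      rw [e]
      refine h.congr_deriv ?_
      have e2 : sig α t ^ (2 * α - 1) = rho α t / sig α t := by
        unfold rho
        rw [Real.rpow_sub hs, Real.rpow_one]
      rw [e2]
      show 1 / lam α t ^ 2 * (2 * α) * (rho α t / sig α t) = 2 * α * rho α t ^ 2 / lam α t ^ 3
      rw [hle]
      field_simp
    · have h := hsd.log hs.ne'
      refine h.congr_deriv ?_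
      rw [hle]
      field_simp
  · exact fun t ht => (cs t ht).rpow_const_of_ne (hsp t ht)
  · exact fun t ht => (cs t ht).rpow_const_of_ne (hsp t ht)
  · intro ε hε
    -- a threshold for `sig`
    have key : ∀ q : ℝ, 0 < q → ∀ᶠ t in nhdsWithin (0 : ℝ) (Set.Ioi 0), sig α t ^ q < ε := by
      intro q hq
      have hc : Continuous (fun t : ℝ => (((4 * α + 3) * t) ^ (1 / (4 * α + 3))) ^ q) := by
        have h1 : Continuous (fun t : ℝ => ((4 * α + 3) * t) ^ (1 / (4 * α + 3))) :=
          (continuous_const.mul continuous_id).rpow_const (fun _ => Or.inr (by positivity))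
        exact h1.rpow_const (fun _ => Or.inr hq.le)
      have h2 : Filter.Tendsto (fun t : ℝ => (((4 * α + 3) * t) ^ (1 / (4 * α + 3))) ^ q)
          (nhdsWithin (0 : ℝ) (Set.Ioi 0)) (nhds 0) := by
        have := hc.tendsto 0
        rw [mul_zero, Real.zero_rpow (by positivity), Real.zero_rpow hq.ne'] at this
        exact this.mono_left nhdsWithin_le_nhds
      exact h2.eventually_lt_const hε
    have k1 := key 1 one_pos
    have k2 := key (2 * α + 1) (by positivity)
    have k3 := key (2 * α) (by positivity)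
    have k := k1.and (k2.and k3)
    rw [eventually_nhdsWithin_iff, Metric.eventually_nhds_iff] at k
    obtain ⟨T, hT, hk⟩ := k
    refine ⟨T / 2, by positivity, fun t ht htT => ?_⟩
    have := hk (y := t) (by rw [Real.dist_eq, sub_zero, abs_of_pos ht]; linarith) ht
    refine ⟨?_, this.2.1, this.2.2⟩
    have h3 := this.1
    rwa [Real.rpow_one] at h3
  · intro δ n hδ
    have hc : 0 < 2 * α * δ := by positivity
    refine ⟨(((n : ℝ) + 1) / (2 * α * δ)) ^ n * exp (2 * α * δ), fun t ht hs1 => ?_⟩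
    have hs := cv_sig_pos h0 ht
    have hlog : Real.log (sig α t) ≤ 0 := Real.log_nonpos hs.le hs1
    have hL : 0 ≤ |Real.log (sig α t)| := abs_nonneg _
    have h := cv_log_bound hc n hL
    have e : rho α t ^ (-δ) = exp (2 * α * δ * |Real.log (sig α t)|) := by
      unfold rho
      rw [← Real.rpow_mul hs.le, Real.rpow_def_of_pos hs, abs_of_nonpos hlog]
      congr 1
      ring
    rw [e]
    exact h

end Pool.Agent.Helper41.KV
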