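import Pool.Agent.Helper41.KV.GoalsC

/-!
# Project KV, goal PAIR: the solvability integrals
-/

namespace Pool.Agent.Helper41.KV

open Real MeasureTheory

theorem pr_Q (hQ : S_QF) : IsE Q := by
  obtain ⟨h1, -, -, -, -, -, h7, -⟩ := hQ
  refine ⟨h1, fun k μ hμ => ?_⟩
  obtain ⟨C, hC⟩ := h7 k
  refine ⟨|C|, fun y => (hC y).trans ?_⟩
  calc C * exp (-|y|) ≤ |C| * exp (-|y|) :=
        mul_le_mul_of_nonneg_right (le_abs_self C) (exp_pos _).le
    _ ≤ |C| * exp (-(μ * |y|)) := by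
      apply mul_le_mul_of_nonneg_left _ (abs_nonneg C)
      apply exp_le_exp.mpr
      nlinarith [abs_nonneg y]

theorem pr_EP (hE : S_ECL1) {f : ℝ → ℝ} (h : IsE f) : IsP f := hE.2.1 f (hE.1 f h)

theorem pr_Eadd (hE : S_ECL1) {f g : ℝ → ℝ} (hf : IsE f) (hg : IsE g) :
    IsE (fun y => f y + g y) := hE.2.2.1 f g hf hg

theorem pr_Padd (hE : S_ECL1) {f g : ℝ → ℝ} (hf : IsP f) (hg : IsP g) :
    IsP (fun y => f y + g y) := hE.2.2.2.2.1 f g hf hg

theorem pr_PE (hE : S_ECL1) {f g : ℝ → ℝ} (hf : IsP f) (hg : IsE g) :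
    IsE (fun y => f y * g y) := hE.2.2.2.2.2.1 f g hf hg

theorem pr_PP (hE : S_ECL1) {f g : ℝ → ℝ} (hf : IsP f) (hg : IsP g) :
    IsP (fun y => f y * g y) := hE.2.2.2.2.2.2.2.1 f g hf hg

theorem pr_dE (hE : S_ECL1) {f : ℝ → ℝ} (hf : IsE f) : IsE (deriv f) :=
  hE.2.2.2.2.2.2.2.2.1 f hf

theorem pr_dP (hE : S_ECL1) {f : ℝ → ℝ} (hf : IsP f) : IsP (deriv f) :=
  hE.2.2.2.2.2.2.2.2.2.2.1 f hf

theorem pr_const (hE : S_ECL1) (c : ℝ) : IsP (fun _ => c) := by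
  have := hE.2.2.2.2.2.2.2.2.2.2.2.1 (Polynomial.C c)
  simpa using this

theorem pr_id (hE : S_ECL1) : IsP (fun y : ℝ => y) := by
  have := hE.2.2.2.2.2.2.2.2.2.2.2.1 Polynomial.X
  simpa using this

theorem pr_tanh (hE : S_ECL1) : IsP (fun y => Real.tanh (2 * y)) :=
  hE.2.2.2.2.2.2.2.2.2.2.2.2.1

theorem pr_sech (hE : S_ECL1) : IsE (fun y => 1 / (Real.cosh (2 * y)) ^ 2) :=
  hE.2.2.2.2.2.2.2.2.2.2.2.2.2.1

theorem pr_intE (hE : S_ECL1) {f : ℝ → ℝ} (hf : IsE f) : Integrable f :=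
  hE.2.2.2.2.2.2.2.2.2.2.2.2.2.2.2.2 f hf

theorem pr_smulE (hE : S_ECL1) (c : ℝ) {f : ℝ → ℝ} (hf : IsE f) : IsE (fun y => c * f y) :=
  pr_PE hE (pr_const hE c) hf

theorem pr_smulP (hE : S_ECL1) (c : ℝ) {f : ℝ → ℝ} (hf : IsP f) : IsP (fun y => c * f y) :=
  pr_PP hE (pr_const hE c) hf

theorem pr_congrE {f g : ℝ → ℝ} (hf : IsE f) (h : ∀ y, g y = f y) : IsE g := by
  have : g = f := funext h
  rw [this]; exact hf

theorem pr_congrP {f g : ℝ → ℝ} (hf : IsP f) (h : ∀ y, g y = f y) : IsP g := by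
  have : g = f := funext h
  rw [this]; exact hf

theorem pr_hd {f : ℝ → ℝ} (hf : IsP f) (y : ℝ) : HasDerivAt f (deriv f y) y :=
  ((hf.1.differentiable (by simp)) y).hasDerivAt

theorem pr_chi (hE : S_ECL1) : IsP chiM := by
  refine pr_congrP (pr_Padd hE (pr_const hE (1/2)) (pr_smulP hE (-1/2) (pr_tanh hE))) ?_
  intro y
  unfold chiM
  ring

theorem pr_tanh_deriv (y : ℝ) :
    HasDerivAt (fun y => Real.tanh (2 * y)) (2 * (1 / (Real.cosh (2 * y)) ^ 2)) y := by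
  have hc : Real.cosh (2 * y) ≠ 0 := (Real.cosh_pos _).ne'
  have h2 : HasDerivAt (fun y : ℝ => 2 * y) 2 y := by
    simpa using (hasDerivAt_id y).const_mul (2 : ℝ)
  have hs := h2.sinh
  have hch := h2.cosh
  have h := hs.div hch hc
  have he : (fun y => Real.tanh (2 * y)) = fun y => Real.sinh (2 * y) / Real.cosh (2 * y) := by
    funext z
    exact Real.tanh_eq_sinh_div_cosh _
  rw [he]
  refine h.congr_deriv ?_
  have := Real.cosh_sq_sub_sinh_sq (2 * y)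
  field_simp
  nlinarith [this]

theorem pr_chi_hd (y : ℝ) : HasDerivAt chiM (-(1 / (Real.cosh (2 * y)) ^ 2)) y := by
  have h := ((pr_tanh_deriv y).const_sub 1).div_const 2
  have he : chiM = fun y => (1 - Real.tanh (2 * y)) / 2 := rfl
  rw [he]
  refine h.congr_deriv ?_
  ring

theorem pr_chi_sq (y : ℝ) : (1 - 2 * chiM y) ^ 2 = 1 - 1 / (Real.cosh (2 * y)) ^ 2 := by
  unfold chiM
  have hc : Real.cosh (2 * y) ≠ 0 := (Real.cosh_pos _).ne'
  rw [Real.tanh_eq_sinh_div_cosh]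
  have := Real.cosh_sq_sub_sinh_sq (2 * y)
  field_simp
  nlinarith [this]

theorem pr_int_deriv (hE : S_ECL1) {F : ℝ → ℝ} (hF : IsE F) : (∫ y, deriv F y) = 0 :=
  integral_eq_zero_of_hasDerivAt_of_integrable (fun y => pr_hd (pr_EP hE hF) y)
    (pr_intE hE (pr_dE hE hF)) (pr_intE hE hF)

theorem pr_deriv_mul {u v : ℝ → ℝ} (hu : IsP u) (hv : IsP v) (y : ℝ) :
    deriv (fun x => u x * v x) y = deriv u y * v y + u y * deriv v y :=
  ((pr_hd hu y).mul (pr_hd hv y)).deriv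

theorem pr_deriv_add {u v : ℝ → ℝ} (hu : IsP u) (hv : IsP v) (y : ℝ) :
    deriv (fun x => u x + v x) y = deriv u y + deriv v y :=
  ((pr_hd hu y).add (pr_hd hv y)).deriv

theorem pr_deriv_smul {u : ℝ → ℝ} (c : ℝ) (hu : IsP u) (y : ℝ) :
    deriv (fun x => c * u x) y = c * deriv u y :=
  ((pr_hd hu y).const_mul c).deriv

theorem pr_ibp (hE : S_ECL1) {u v : ℝ → ℝ} (hu : IsP u) (hv : IsE v) :
    (∫ y, deriv u y * v y) = - ∫ y, u y * deriv v y := by
  have h := pr_int_deriv hE (pr_PE hE hu hv)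
  have h2 : (∫ y, deriv (fun y => u y * v y) y)
      = ∫ y, (deriv u y * v y + u y * deriv v y) := by
    congr 1
    funext y
    exact pr_deriv_mul hu (pr_EP hE hv) y
  rw [h2, integral_add (pr_intE hE (pr_PE hE (pr_dP hE hu) hv))
    (pr_intE hE (pr_PE hE hu (pr_dE hE hv)))] at h
  linarith

theorem pr_Q4 (hQ : S_QF) (hE : S_ECL1) : IsE (fun y => Q y ^ 4) := by
  have h := pr_EP hE (pr_Q hQ)
  refine pr_congrE (pr_PE hE (pr_PP hE (pr_PP hE h h) h) (pr_Q hQ)) ?_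
  intro y
  ring

theorem pr_Q3 (hQ : S_QF) (hE : S_ECL1) : IsE (fun y => Q y ^ 3) := by
  have h := pr_EP hE (pr_Q hQ)
  refine pr_congrE (pr_PE hE (pr_PP hE h h) (pr_Q hQ)) ?_
  intro y
  ring

theorem pr_Lop_P (hQ : S_QF) (hE : S_ECL1) {f : ℝ → ℝ} (hf : IsP f) : IsP (Lop f) := by
  have h1 := pr_smulP hE (-1) (pr_dP hE (pr_dP hE hf))
  have h2 := pr_smulP hE (-5) (pr_PP hE (pr_EP hE (pr_Q4 hQ hE)) hf)
  refine pr_congrP (pr_Padd hE (pr_Padd hE h1 hf) h2) ?_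
  intro y
  unfold Lop
  ring

theorem pr_Lop_E (hQ : S_QF) (hE : S_ECL1) {f : ℝ → ℝ} (hf : IsE f) : IsE (Lop f) := by
  have h1 := pr_smulE hE (-1) (pr_dE hE (pr_dE hE hf))
  have h2 := pr_smulE hE (-5) (pr_PE hE (pr_EP hE (pr_Q4 hQ hE)) hf)
  refine pr_congrE (pr_Eadd hE (pr_Eadd hE h1 hf) h2) ?_
  intro y
  unfold Lop
  ring

theorem pr_Lop_add (hE : S_ECL1) {f g : ℝ → ℝ} (hf : IsP f) (hg : IsP g) (y : ℝ) :
    Lop (fun x => f x + g x) y = Lop f y + Lop g y := by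
  have h1 : deriv (fun x => f x + g x) = fun x => deriv f x + deriv g x :=
    funext fun x => pr_deriv_add hf hg x
  unfold Lop
  rw [h1, pr_deriv_add (pr_dP hE hf) (pr_dP hE hg) y]
  ring

theorem pr_Lop_smul (hE : S_ECL1) {f : ℝ → ℝ} (c : ℝ) (hf : IsP f) (y : ℝ) :
    Lop (fun x => c * f x) y = c * Lop f y := by
  have h1 : deriv (fun x => c * f x) = fun x => c * deriv f x :=
    funext fun x => pr_deriv_smul c hf x
  unfold Lop
  rw [h1, pr_deriv_smul c (pr_dP hE hf) y]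
  ring

theorem pr_Lop_id (y c d : ℝ) : Lop (fun x => c * x + d) y = c * y + d - 5 * Q y ^ 4 * (c * y + d) := by
  have h1 : deriv (fun x : ℝ => c * x + d) = fun _ => c := by
    funext x
    have := ((hasDerivAt_id' x).const_mul c).add_const d
    rw [mul_one] at this
    exact this.deriv
  unfold Lop
  rw [h1]
  simp

/-- `L (f') = (L f)' + 20 Q^3 Q' f`. -/
theorem pr_Lop_deriv (hQ : S_QF) (hE : S_ECL1) {f : ℝ → ℝ} (hf : IsP f) (y : ℝ) :
    Lop (deriv f) y = deriv (Lop f) y + 20 * Q y ^ 3 * deriv Q y * f y := by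
  have hQP := pr_EP hE (pr_Q hQ)
  have h4 : HasDerivAt (fun x => Q x ^ 4) (4 * Q y ^ 3 * deriv Q y) y := by
    have := (pr_hd hQP y).fun_pow 4
    simpa using this
  have hd : HasDerivAt (Lop f) (- deriv (deriv (deriv f)) y + deriv f y
      - (5 * (4 * Q y ^ 3 * deriv Q y) * f y + 5 * Q y ^ 4 * deriv f y)) y := by
    have h1 := (pr_hd (pr_dP hE (pr_dP hE hf)) y).neg
    have h2 := h1.add (pr_hd hf y)
    have h3 := (h4.const_mul 5).mul (pr_hd hf y)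
    exact h2.sub h3
  rw [hd.deriv]
  unfold Lop
  ring

/-- Self-adjointness. -/
theorem pr_self (hQ : S_QF) (hE : S_ECL1) {g h : ℝ → ℝ} (hg : IsP g) (hh : IsE h) :
    (∫ y, g y * Lop h y) = ∫ y, Lop g y * h y := by
  have i1 := pr_ibp hE (pr_dP hE hg) hh
  have i2 := pr_ibp hE hg (pr_dE hE hh)
  have e1 : (∫ y, deriv (deriv g) y * h y) = ∫ y, g y * deriv (deriv h) y := by
    rw [i1, i2, neg_neg]
  have hE4 := pr_EP hE (pr_Q4 hQ hE)
  have a1 : IsE (fun y => g y * deriv (deriv h) y) := pr_PE hE hg (pr_dE hE (pr_dE hE hh))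
  have a2 : IsE (fun y => deriv (deriv g) y * h y) := pr_PE hE (pr_dP hE (pr_dP hE hg)) hh
  have a3 : IsE (fun y => (g y * (1 + -5 * Q y ^ 4)) * h y) :=
    pr_PE hE (pr_PP hE hg (pr_Padd hE (pr_const hE 1) (pr_smulP hE (-5) hE4))) hh
  have l1 : (∫ y, g y * Lop h y)
      = (∫ y, (g y * (1 + -5 * Q y ^ 4)) * h y) - ∫ y, g y * deriv (deriv h) y := by
    rw [← integral_sub (pr_intE hE a3) (pr_intE hE a1)]
    congr 1
    funext y
    unfold Lop
    ring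
  have l2 : (∫ y, Lop g y * h y)
      = (∫ y, (g y * (1 + -5 * Q y ^ 4)) * h y) - ∫ y, deriv (deriv g) y * h y := by
    rw [← integral_sub (pr_intE hE a3) (pr_intE hE a2)]
    congr 1
    funext y
    unfold Lop
    ring
  rw [l1, l2, e1]

theorem pr_Q5 (hQ : S_QF) (hE : S_ECL1) : (∫ y, Q y ^ 5) = ∫ y, Q y := by
  have hQE := pr_Q hQ
  have h := pr_int_deriv hE (pr_dE hE hQE)
  have h5 : IsE (fun y => Q y * Q y ^ 4) := pr_PE hE (pr_EP hE hQE) (pr_Q4 hQ hE)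
  have h2 : (∫ y, deriv (deriv Q) y) = (∫ y, Q y) - ∫ y, Q y * Q y ^ 4 := by
    rw [← integral_sub (pr_intE hE hQE) (pr_intE hE h5)]
    congr 1
    funext y
    rw [hQ.2.2.2.2.2.1 y]
    ring
  have h3 : (∫ y, Q y ^ 5) = ∫ y, Q y * Q y ^ 4 := by
    congr 1
    funext y
    ring
  rw [h3]
  linarith

theorem pr_LamQ_E (hQ : S_QF) (hE : S_ECL1) : IsE (Lam Q) := by
  refine pr_congrE (pr_Eadd hE (pr_smulE hE (1/2) (pr_Q hQ))
    (pr_PE hE (pr_id hE) (pr_dE hE (pr_Q hQ)))) ?_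
  intro y
  unfold Lam
  ring

/-- `∫ (u/2 + y u') Q = - ∫ u ΛQ`. -/
theorem pr_lam (hQ : S_QF) (hE : S_ECL1) {u : ℝ → ℝ} (hu : IsP u) :
    (∫ y, (u y / 2 + y * deriv u y) * Q y) = - ∫ y, u y * Lam Q y := by
  have hQE := pr_Q hQ
  have hyQ : IsE (fun y => y * Q y) := pr_PE hE (pr_id hE) hQE
  have h := pr_ibp hE hu hyQ
  have hd : ∀ y, deriv (fun y => y * Q y) y = Q y + y * deriv Q y := by
    intro y
    rw [pr_deriv_mul (pr_id hE) (pr_EP hE hQE) y]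
    simp
  have a1 : IsE (fun y => (u y / 2) * Q y) :=
    pr_PE hE (pr_congrP (pr_smulP hE (1/2) hu) (fun y => by ring)) hQE
  have a2 : IsE (fun y => deriv u y * (y * Q y)) := pr_PE hE (pr_dP hE hu) hyQ
  have a3 : IsE (fun y => u y * deriv (fun y => y * Q y) y) := pr_PE hE hu (pr_dE hE hyQ)
  have l1 : (∫ y, (u y / 2 + y * deriv u y) * Q y)
      = (∫ y, (u y / 2) * Q y) + ∫ y, deriv u y * (y * Q y) := by
    rw [← integral_add (pr_intE hE a1) (pr_intE hE a2)]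
    congr 1
    funext y
    ring
  have l2 : (∫ y, u y * Lam Q y)
      = (∫ y, u y * deriv (fun y => y * Q y) y) - ∫ y, (u y / 2) * Q y := by
    rw [← integral_sub (pr_intE hE a3) (pr_intE hE a1)]
    congr 1
    funext y
    rw [hd]
    unfold Lam
    ring
  rw [l1, l2, h]
  ring

theorem pr_intLam (hQ : S_QF) (hE : S_ECL1) : (∫ y, Lam Q y) = -(∫ y, Q y) / 2 := by
  have h := pr_lam hQ hE (pr_const hE 1)
  have e1 : (∫ y, ((1 : ℝ) / 2 + y * deriv (fun _ : ℝ => (1 : ℝ)) y) * Q y) = (∫ y, Q y) / 2 := by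
    rw [← integral_div]
    congr 1
    funext y
    simp
    ring
  rw [e1] at h
  simp only [one_mul] at h
  linarith

/-- `∫ (5 Q^4 (c y))' Q = c I`. -/
theorem pr_I2 (hQ : S_QF) (hE : S_ECL1) : (∫ y, y * (5 * Q y ^ 4 * deriv Q y)) = -∫ y, Q y := by
  have hQE := pr_Q hQ
  have hQP := pr_EP hE hQE
  have h5 : IsE (fun y => Q y * Q y ^ 4) := pr_PE hE hQP (pr_Q4 hQ hE)
  have h := pr_ibp hE (pr_id hE) h5
  have hd : ∀ y, deriv (fun y => Q y * Q y ^ 4) y = 5 * Q y ^ 4 * deriv Q y := by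
    intro y
    have h4 := ((pr_hd hQP y).mul ((pr_hd hQP y).pow 4)).deriv
    have e : deriv (fun y => Q y * Q y ^ 4) y = deriv (Q * (fun y => Q y ^ 4)) y := rfl
    rw [e]
    refine Eq.trans h4 ?_
    simp
    ring
  have e1 : (∫ y, deriv (fun y : ℝ => y) y * (Q y * Q y ^ 4)) = ∫ y, Q y ^ 5 := by
    congr 1
    funext y
    simp
    ring
  have e2 : (∫ y, y * deriv (fun y => Q y * Q y ^ 4) y)
      = ∫ y, y * (5 * Q y ^ 4 * deriv Q y) := by
    congr 1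
    funext y
    rw [hd]
  rw [e1, e2, pr_Q5 hQ hE] at h
  linarith

/-- Packaged facts on `R` and `P`. -/
theorem pr_LR (hE : S_ECL1) {R P : ℝ → ℝ} (h : IsRP R P) (y : ℝ) : Lop R y = 5 * Q y ^ 4 := by
  have h1 := h.R_eq y
  have h2 := pr_Lop_add hE (pr_const hE 1) (pr_EP hE h.R_E) y
  have h3 := pr_Lop_id y 0 1
  simp only [zero_mul, zero_add, mul_one] at h3
  rw [h2, h3] at h1
  linarith

theorem pr_P_e (_hE : S_ECL1) {R P : ℝ → ℝ} (h : IsRP R P) :
    IsE (fun y => P y - ((∫ y, Q y) / 2) * chiM y) := by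
  have := h.P_tail
  unfold HasTail at this
  simpa using this

theorem pr_P_P (hE : S_ECL1) {R P : ℝ → ℝ} (h : IsRP R P) : IsP P := by
  refine pr_congrP (pr_Padd hE (pr_EP hE (pr_P_e hE h))
    (pr_smulP hE ((∫ y, Q y) / 2) (pr_chi hE))) ?_
  intro y
  ring

theorem pr_P_d (hE : S_ECL1) {R P : ℝ → ℝ} (h : IsRP R P) : IsE (deriv P) := by
  have h1 := pr_dE hE (pr_P_e hE h)
  have h2 := pr_smulE hE (-((∫ y, Q y) / 2)) (pr_sech hE)
  refine pr_congrE (pr_Eadd hE h1 h2) ?_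
  intro y
  have h3 : HasDerivAt (fun y => P y - ((∫ y, Q y) / 2) * chiM y)
      (deriv P y - ((∫ y, Q y) / 2) * (-(1 / (Real.cosh (2 * y)) ^ 2))) y :=
    (pr_hd (pr_P_P hE h) y).sub ((pr_chi_hd y).const_mul _)
  rw [h3.deriv]
  ring

theorem pr_w_e (hE : S_ECL1) (α : ℝ) {R P : ℝ → ℝ} (h : IsRP R P) :
    IsE (fun y => wOne α R P y + 2 * kOne α * chiM y) := by
  refine pr_congrE (pr_Eadd hE (pr_smulE hE (kOne α) h.R_E)
    (pr_smulE hE (-(2 * α + 1)) (pr_P_e hE h))) ?_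
  intro y
  unfold wOne kOne
  ring

theorem pr_w_P (hE : S_ECL1) (α : ℝ) {R P : ℝ → ℝ} (h : IsRP R P) : IsP (wOne α R P) := by
  refine pr_congrP (pr_Padd hE (pr_EP hE (pr_w_e hE α h))
    (pr_smulP hE (-(2 * kOne α)) (pr_chi hE))) ?_
  intro y
  ring

theorem pr_w_d (hE : S_ECL1) (α : ℝ) {R P : ℝ → ℝ} (h : IsRP R P) : IsE (deriv (wOne α R P)) := by
  refine pr_congrE (pr_Eadd hE (pr_smulE hE (kOne α) (pr_dE hE h.R_E))
    (pr_smulE hE (-(2 * α + 1)) (pr_P_d hE h))) ?_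
  intro y
  have h3 : HasDerivAt (wOne α R P) (kOne α * deriv R y - (2 * α + 1) * deriv P y) y :=
    ((pr_hd (pr_EP hE h.R_E) y).const_mul _).sub ((pr_hd (pr_P_P hE h) y).const_mul _)
  rw [h3.deriv]
  ring

theorem pr_Lw (hE : S_ECL1) (α : ℝ) {R P : ℝ → ℝ} (h : IsRP R P) (y : ℝ) :
    Lop (wOne α R P) y = kOne α * (5 * Q y ^ 4) - (2 * α + 1) * Lop P y := by
  have hR := pr_EP hE h.R_E
  have hP := pr_P_P hE h
  have e : wOne α R P = fun y => kOne α * R y + (-(2 * α + 1)) * P y := by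
    funext y
    unfold wOne
    ring
  rw [e, pr_Lop_add hE (pr_smulP hE _ hR) (pr_smulP hE _ hP), pr_Lop_smul hE _ hR,
    pr_Lop_smul hE _ hP, pr_LR hE h]
  ring

/-- The function `g = k_1 + w_1`. -/
noncomputable def prG (α : ℝ) (R P : ℝ → ℝ) (y : ℝ) : ℝ := kOne α + wOne α R P y

theorem pr_g_P (hE : S_ECL1) (α : ℝ) {R P : ℝ → ℝ} (h : IsRP R P) : IsP (prG α R P) :=
  pr_Padd hE (pr_const hE _) (pr_w_P hE α h)

theorem pr_g_deriv (hE : S_ECL1) (α : ℝ) {R P : ℝ → ℝ} (h : IsRP R P) (y : ℝ) :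
    deriv (prG α R P) y = deriv (wOne α R P) y :=
  ((pr_hd (pr_w_P hE α h) y).const_add (kOne α)).deriv

theorem pr_g_d (hE : S_ECL1) (α : ℝ) {R P : ℝ → ℝ} (h : IsRP R P) : IsE (deriv (prG α R P)) :=
  pr_congrE (pr_w_d hE α h) (pr_g_deriv hE α h)

theorem pr_Lg (hE : S_ECL1) (α : ℝ) {R P : ℝ → ℝ} (h : IsRP R P) (y : ℝ) :
    Lop (prG α R P) y = kOne α - (2 * α + 1) * Lop P y := by
  have h1 : Lop (prG α R P) y = Lop (fun _ => kOne α) y + Lop (wOne α R P) y :=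
    pr_Lop_add hE (pr_const hE _) (pr_w_P hE α h) y
  have h3 := pr_Lop_id y 0 (kOne α)
  simp only [zero_mul, zero_add] at h3
  rw [h1, h3, pr_Lw hE α h]
  ring

theorem pr_Lg_d (hE : S_ECL1) (α : ℝ) {R P : ℝ → ℝ} (h : IsRP R P) (y : ℝ) :
    deriv (Lop (prG α R P)) y = -(2 * α + 1) * Lam Q y := by
  have e : Lop (prG α R P) = fun y => kOne α - (2 * α + 1) * Lop P y :=
    funext (pr_Lg hE α h)
  rw [e]
  have := ((h.P_eq y).const_mul (2 * α + 1)).const_sub (kOne α)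
  rw [this.deriv]
  ring

/-- `∫ ((L g) g)' = 0`. -/
theorem pr_bd (hQ : S_QF) (hE : S_ECL1) (α : ℝ) {R P : ℝ → ℝ} (h : IsRP R P) :
    (∫ y, (deriv (Lop (prG α R P)) y * prG α R P y + Lop (prG α R P) y * deriv (prG α R P) y))
      = 0 := by
  have hg := pr_g_P hE α h
  have hL := pr_Lop_P hQ hE hg
  have e1 : IsE (fun y => Lop (prG α R P) y - kOne α * (1 - 2 * chiM y)) := by
    refine pr_congrE (pr_smulE hE (-(2 * α + 1)) h.P_lop) ?_
    intro y
    rw [pr_Lg hE α h]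
    unfold kOne
    ring
  have e2 : IsE (fun y => prG α R P y - kOne α * (1 - 2 * chiM y)) := by
    refine pr_congrE (pr_w_e hE α h) ?_
    intro y
    unfold prG
    ring
  have hF : IsE (fun y => Lop (prG α R P) y * prG α R P y - kOne α ^ 2) := by
    have a1 := pr_PE hE hL e2
    have a2 : IsE (fun y => (kOne α * (1 - 2 * chiM y))
        * (Lop (prG α R P) y - kOne α * (1 - 2 * chiM y))) := by
      refine pr_PE hE ?_ e1
      refine pr_congrP (pr_smulP hE (kOne α)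
        (pr_Padd hE (pr_const hE 1) (pr_smulP hE (-2) (pr_chi hE)))) ?_
      intro y
      ring
    have a3 := pr_smulE hE (-(kOne α ^ 2)) (pr_sech hE)
    refine pr_congrE (pr_Eadd hE (pr_Eadd hE a1 a2) a3) ?_
    intro y
    have := pr_chi_sq y
    linear_combination (kOne α ^ 2) * this
  have h0 := pr_int_deriv hE hF
  rw [← h0]
  congr 1
  funext y
  have := ((pr_hd hL y).mul (pr_hd hg y)).sub_const (kOne α ^ 2)
  exact this.deriv.symm

/-- (I4). -/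
theorem pr_I4 (hQ : S_QF) (hE : S_ECL1) (α : ℝ) {R P : ℝ → ℝ} (h : IsRP R P) :
    (∫ y, 10 * Q y ^ 3 * deriv Q y * prG α R P y ^ 2)
      = (2 * α + 1) * ∫ y, prG α R P y * Lam Q y := by
  have hg := pr_g_P hE α h
  have hgd := pr_g_d hE α h
  have hL := pr_Lop_P hQ hE hg
  have hLd : IsE (deriv (Lop (prG α R P))) :=
    pr_congrE (pr_smulE hE (-(2 * α + 1)) (pr_LamQ_E hQ hE)) (pr_Lg_d hE α h)
  have b := pr_bd hQ hE α h
  rw [integral_add (pr_intE hE (pr_congrE (pr_PE hE hg hLd) (fun y => mul_comm _ _)))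
    (pr_intE hE (pr_PE hE hL hgd))] at b
  have s := pr_self hQ hE hg hgd
  have k1 : (∫ y, prG α R P y * Lop (deriv (prG α R P)) y)
      = (∫ y, deriv (Lop (prG α R P)) y * prG α R P y)
        + 2 * ∫ y, 10 * Q y ^ 3 * deriv Q y * prG α R P y ^ 2 := by
    have c1 : IsE (fun y => 10 * Q y ^ 3 * deriv Q y * prG α R P y ^ 2) := by
      refine pr_congrE (pr_smulE hE 10 (pr_PE hE (pr_PP hE (pr_PP hE hg hg)
        (pr_EP hE (pr_Q3 hQ hE))) (pr_dE hE (pr_Q hQ)))) ?_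
      intro y
      ring
    rw [← integral_const_mul, ← integral_add
      (pr_intE hE (pr_congrE (pr_PE hE hg hLd) (fun y => mul_comm _ _)))
      ((pr_intE hE c1).const_mul 2)]
    congr 1
    funext y
    rw [pr_Lop_deriv hQ hE hg y]
    ring
  have k2 : (∫ y, deriv (Lop (prG α R P)) y * prG α R P y)
      = -(2 * α + 1) * ∫ y, prG α R P y * Lam Q y := by
    rw [← integral_const_mul]
    congr 1
    funext y
    rw [pr_Lg_d hE α h]
    ring
  linarith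

/-- (I3). -/
theorem pr_I3 (hQ : S_QF) (hE : S_ECL1) (α : ℝ) {R P : ℝ → ℝ} (h : IsRP R P) :
    (∫ y, 20 * Q y ^ 3 * deriv Q y * (1 + R y) * prG α R P y)
      = (2 * α + 1) * ∫ y, R y * Lam Q y := by
  have hg := pr_g_P hE α h
  have hL := pr_Lop_P hQ hE hg
  have hR := pr_EP hE h.R_E
  have h1R : IsP (fun x => 1 + R x) := pr_Padd hE (pr_const hE 1) hR
  have hd1 : deriv (fun x => 1 + R x) = deriv R := by
    funext x
    exact ((pr_hd hR x).const_add 1).deriv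
  have hL1 : Lop (fun x => 1 + R x) = fun _ => 1 := funext h.R_eq
  have e1 : ∀ y, Lop (deriv R) y = 20 * Q y ^ 3 * deriv Q y * (1 + R y) := by
    intro y
    have := pr_Lop_deriv hQ hE h1R y
    rw [hd1, hL1] at this
    rw [this]
    simp
  have s := pr_self hQ hE hg (pr_dE hE h.R_E)
  have b := pr_ibp hE hL h.R_E
  have k1 : (∫ y, 20 * Q y ^ 3 * deriv Q y * (1 + R y) * prG α R P y)
      = ∫ y, prG α R P y * Lop (deriv R) y := by
    congr 1
    funext y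
    rw [e1]
    ring
  have k2 : (∫ y, deriv (Lop (prG α R P)) y * R y) = -(2 * α + 1) * ∫ y, R y * Lam Q y := by
    rw [← integral_const_mul]
    congr 1
    funext y
    rw [pr_Lg_d hE α h]
    ring
  rw [k1, s]
  linarith

theorem pr_RQ (hQ : S_QF) (hE : S_ECL1) {R P : ℝ → ℝ} (h : IsRP R P) :
    (∫ y, R y * Q y) = -3 * (∫ y, Q y) / 4 := by
  have h1 := h.R_int
  have e : (∫ y, (1 + R y) * Q y) = (∫ y, Q y) + ∫ y, R y * Q y := by
    rw [← integral_add (pr_intE hE (pr_Q hQ))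
      (pr_intE hE (pr_PE hE (pr_EP hE h.R_E) (pr_Q hQ)))]
    congr 1
    funext y
    ring
  rw [e] at h1
  linarith

theorem pr_wQ (hQ : S_QF) (hE : S_ECL1) (α : ℝ) {R P : ℝ → ℝ} (h : IsRP R P) :
    (∫ y, wOne α R P y * Q y) = -kOne α * ∫ y, Q y := by
  have e : (∫ y, wOne α R P y * Q y)
      = kOne α * (∫ y, R y * Q y) - (2 * α + 1) * ∫ y, P y * Q y := by
    rw [← integral_const_mul, ← integral_const_mul, ← integral_sub
      ((pr_intE hE (pr_PE hE (pr_EP hE h.R_E) (pr_Q hQ))).const_mul _)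
      ((pr_intE hE (pr_PE hE (pr_P_P hE h) (pr_Q hQ))).const_mul _)]
    congr 1
    funext y
    unfold wOne
    ring
  rw [e, pr_RQ hQ hE h, h.P_int]
  unfold kOne
  ring

/-- `∫ w_1 ΛQ = ∫ g ΛQ + k_1 I / 2`. -/
theorem pr_wLam (hQ : S_QF) (hE : S_ECL1) (α : ℝ) {R P : ℝ → ℝ} (h : IsRP R P) :
    (∫ y, wOne α R P y * Lam Q y)
      = (∫ y, prG α R P y * Lam Q y) + kOne α * (∫ y, Q y) / 2 := by
  have hL := pr_LamQ_E hQ hE
  have e : (∫ y, wOne α R P y * Lam Q y)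
      = (∫ y, prG α R P y * Lam Q y) - kOne α * ∫ y, Lam Q y := by
    rw [← integral_const_mul, ← integral_sub
      (pr_intE hE (pr_PE hE (pr_g_P hE α h) hL)) ((pr_intE hE hL).const_mul _)]
    congr 1
    funext y
    unfold prG
    ring
  rw [e, pr_intLam hQ hE]
  ring

/-- `∫ (5 Q^4 (y c))' Q = c I`. -/
theorem pr_lin (hQ : S_QF) (hE : S_ECL1) (c : ℝ) :
    (∫ y, deriv (fun y' => 5 * Q y' ^ 4 * (c * y')) y * Q y) = c * ∫ y, Q y := by
  have hu : IsP (fun y' => 5 * Q y' ^ 4 * (c * y')) :=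
    pr_PP hE (pr_smulP hE 5 (pr_EP hE (pr_Q4 hQ hE))) (pr_smulP hE c (pr_id hE))
  rw [pr_ibp hE hu (pr_Q hQ)]
  have e : (∫ y, 5 * Q y ^ 4 * (c * y) * deriv Q y)
      = c * ∫ y, y * (5 * Q y ^ 4 * deriv Q y) := by
    rw [← integral_const_mul]
    congr 1
    funext y
    ring
  rw [e, pr_I2 hQ hE]
  ring

theorem pr_four (hE : S_ECL1) (a d : ℝ) {f1 f2 f3 f4 : ℝ → ℝ} (h1 : IsE f1) (h2 : IsE f2)
    (h3 : IsE f3) (h4 : IsE f4) :
    (∫ y, (a * f1 y + f2 y + f3 y - d * f4 y))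
      = a * (∫ y, f1 y) + (∫ y, f2 y) + (∫ y, f3 y) - d * ∫ y, f4 y := by
  have i1 : Integrable (fun y => a * f1 y) := (pr_intE hE h1).const_mul a
  have i4 : Integrable (fun y => d * f4 y) := (pr_intE hE h4).const_mul d
  have i12 : Integrable (fun y => a * f1 y + f2 y) := i1.add (pr_intE hE h2)
  have i123 : Integrable (fun y => a * f1 y + f2 y + f3 y) := i12.add (pr_intE hE h3)
  rw [integral_sub i123 i4, integral_add i12 (pr_intE hE h3), integral_add i1 (pr_intE hE h2),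
    integral_const_mul, integral_const_mul]

theorem pr_part_b (hQ : S_QF) (hE : S_ECL1) (α : ℝ) {R P : ℝ → ℝ} (h : IsRP R P) :
    (∫ y, (2 * α * wOne α R P y
        + deriv (fun y' => 5 * Q y' ^ 4 * (kOne α * (α - 1/2) * y')
            + 10 * Q y' ^ 3 * (kOne α + wOne α R P y') ^ 2) y
        - (2 * α + 1) * (wOne α R P y / 2 + y * deriv (wOne α R P) y)) * Q y) = 0 := by
  have hw := pr_w_P hE α h
  have hg := pr_g_P hE α h
  have hQE := pr_Q hQ
  have hu1 : IsP (fun y' => 5 * Q y' ^ 4 * (kOne α * (α - 1/2) * y')) :=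
    pr_PP hE (pr_smulP hE 5 (pr_EP hE (pr_Q4 hQ hE))) (pr_smulP hE _ (pr_id hE))
  have hu2 : IsP (fun y' => 10 * Q y' ^ 3 * (kOne α + wOne α R P y') ^ 2) := by
    refine pr_congrP (pr_PP hE (pr_smulP hE 10 (pr_EP hE (pr_Q3 hQ hE))) (pr_PP hE hg hg)) ?_
    intro y
    unfold prG
    ring
  have t1 : IsE (fun y => wOne α R P y * Q y) := pr_PE hE hw hQE
  have t2 := pr_PE hE (pr_dP hE hu1) hQE
  have t3 := pr_PE hE (pr_dP hE hu2) hQE
  have t4 : IsE (fun y => (wOne α R P y / 2 + y * deriv (wOne α R P) y) * Q y) := by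
    refine pr_PE hE (pr_Padd hE (pr_congrP (pr_smulP hE (1/2) hw) (fun y => by ring))
      (pr_PP hE (pr_id hE) (pr_dP hE hw))) hQE
  have e : (∫ y, (2 * α * wOne α R P y
        + deriv (fun y' => 5 * Q y' ^ 4 * (kOne α * (α - 1/2) * y')
            + 10 * Q y' ^ 3 * (kOne α + wOne α R P y') ^ 2) y
        - (2 * α + 1) * (wOne α R P y / 2 + y * deriv (wOne α R P) y)) * Q y)
      = 2 * α * (∫ y, wOne α R P y * Q y)
        + (∫ y, deriv (fun y' => 5 * Q y' ^ 4 * (kOne α * (α - 1/2) * y')) y * Q y)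
        + (∫ y, deriv (fun y' => 10 * Q y' ^ 3 * (kOne α + wOne α R P y') ^ 2) y * Q y)
        - (2 * α + 1) * ∫ y, (wOne α R P y / 2 + y * deriv (wOne α R P) y) * Q y := by
    rw [← pr_four hE _ _ t1 t2 t3 t4]
    congr 1
    funext y
    rw [pr_deriv_add hu1 hu2 y]
    ring
  have e3 : (∫ y, deriv (fun y' => 10 * Q y' ^ 3 * (kOne α + wOne α R P y') ^ 2) y * Q y)
      = -((2 * α + 1) * ∫ y, prG α R P y * Lam Q y) := by
    rw [pr_ibp hE hu2 hQE, ← pr_I4 hQ hE α h]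
    congr 2
    funext y
    unfold prG
    ring
  rw [e, e3, pr_lin hQ hE, pr_lam hQ hE hw, pr_wLam hQ hE α h, pr_wQ hQ hE α h]
  ring

theorem pr_part_c (hQ : S_QF) (hE : S_ECL1) (α : ℝ) {R P : ℝ → ℝ} (h : IsRP R P)
    (j q0 q1 : ℝ) :
    (∫ y, (2 * α * (j + 1) * (q0 * R y) + q1 * R y
        + deriv (fun y' => 5 * Q y' ^ 4 * (y' * (q1 + (α - 1/2 + 2 * α * j) * q0))
            + 20 * Q y' ^ 3 * (kOne α + wOne α R P y') * (q0 + q0 * R y')) y
        - (2 * α + 1) * (q0 * R y / 2 + y * (q0 * deriv R y))) * Q y)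
          = (∫ y, Q y) / 4 * (q1 + (2 * α * j - 2 * α - 2) * q0) := by
  have hw := pr_w_P hE α h
  have hg := pr_g_P hE α h
  have hQE := pr_Q hQ
  have hR := pr_EP hE h.R_E
  have hu1 : IsP (fun y' => 5 * Q y' ^ 4 * (y' * (q1 + (α - 1/2 + 2 * α * j) * q0))) := by
    refine pr_congrP (pr_PP hE (pr_smulP hE 5 (pr_EP hE (pr_Q4 hQ hE)))
      (pr_smulP hE (q1 + (α - 1/2 + 2 * α * j) * q0) (pr_id hE))) ?_
    intro y
    ring
  have hu2 : IsP (fun y' => 20 * Q y' ^ 3 * (kOne α + wOne α R P y') * (q0 + q0 * R y')) :=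
    pr_PP hE (pr_PP hE (pr_smulP hE 20 (pr_EP hE (pr_Q3 hQ hE))) hg)
      (pr_Padd hE (pr_const hE q0) (pr_smulP hE q0 hR))
  have t1 : IsE (fun y => R y * Q y) := pr_PE hE hR hQE
  have t2 := pr_PE hE (pr_dP hE hu1) hQE
  have t3 := pr_PE hE (pr_dP hE hu2) hQE
  have t4 : IsE (fun y => (R y / 2 + y * deriv R y) * Q y) := by
    refine pr_PE hE (pr_Padd hE (pr_congrP (pr_smulP hE (1/2) hR) (fun y => by ring))
      (pr_PP hE (pr_id hE) (pr_dP hE hR))) hQE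
  have e : (∫ y, (2 * α * (j + 1) * (q0 * R y) + q1 * R y
        + deriv (fun y' => 5 * Q y' ^ 4 * (y' * (q1 + (α - 1/2 + 2 * α * j) * q0))
            + 20 * Q y' ^ 3 * (kOne α + wOne α R P y') * (q0 + q0 * R y')) y
        - (2 * α + 1) * (q0 * R y / 2 + y * (q0 * deriv R y))) * Q y)
      = (2 * α * (j + 1) * q0 + q1) * (∫ y, R y * Q y)
        + (∫ y, deriv (fun y' => 5 * Q y' ^ 4 * (y' * (q1 + (α - 1/2 + 2 * α * j) * q0))) y * Q y)
        + (∫ y, deriv (fun y' => 20 * Q y' ^ 3 * (kOne α + wOne α R P y')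
            * (q0 + q0 * R y')) y * Q y)
        - ((2 * α + 1) * q0) * ∫ y, (R y / 2 + y * deriv R y) * Q y := by
    rw [← pr_four hE _ _ t1 t2 t3 t4]
    congr 1
    funext y
    rw [pr_deriv_add hu1 hu2 y]
    ring
  have e2 : (∫ y, deriv (fun y' => 5 * Q y' ^ 4 * (y' * (q1 + (α - 1/2 + 2 * α * j) * q0))) y * Q y)
      = (q1 + (α - 1/2 + 2 * α * j) * q0) * ∫ y, Q y := by
    rw [← pr_lin hQ hE]
    congr 1
    funext y
    congr 2
    funext z
    ring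
  have e3 : (∫ y, deriv (fun y' => 20 * Q y' ^ 3 * (kOne α + wOne α R P y')
            * (q0 + q0 * R y')) y * Q y)
      = -(q0 * ((2 * α + 1) * ∫ y, R y * Lam Q y)) := by
    rw [pr_ibp hE hu2 hQE, ← pr_I3 hQ hE α h, ← integral_const_mul]
    congr 2
    funext y
    unfold prG
    ring
  rw [e, e3, e2, pr_lam hQ hE hR, pr_RQ hQ hE h]
  ring

theorem pr_part_e (hQ : S_QF) (hE : S_ECL1) (α : ℝ) {R P : ℝ → ℝ} (h : IsRP R P)
    (c1 : ℝ) (ω : ℝ → ℝ) (hω : IsT ω)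
    (heq : ∀ y, deriv (Lop ω) y = (2 * α * wOne α R P y
        + deriv (fun y' => 5 * Q y' ^ 4 * (kOne α * (α - 1/2) * y')
            + 10 * Q y' ^ 3 * (kOne α + wOne α R P y') ^ 2) y
        - (2 * α + 1) * (wOne α R P y / 2 + y * deriv (wOne α R P) y))
        + c1 * deriv (fun y' => 5 * Q y' ^ 4) y) (y : ℝ) :
    HasDerivAt (Lop (fun x => kOne α * (α - 1/2) * x + c1 + ω x))
        (2 * α * (kOne α + wOne α R P y)
          + deriv (fun y' => 10 * Q y' ^ 3 * (kOne α + wOne α R P y') ^ 2) y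
          - (2 * α + 1) * Lam (fun x => kOne α + wOne α R P x) y) y := by
  have hw := pr_w_P hE α h
  have hg := pr_g_P hE α h
  have hQ4 := pr_EP hE (pr_Q4 hQ hE)
  have hωP : IsP ω := by
    obtain ⟨q, hq⟩ := hω
    refine pr_congrP (pr_Padd hE (pr_EP hE hq)
      (pr_PP hE (hE.2.2.2.2.2.2.2.2.2.2.2.1 q) (pr_chi hE))) ?_
    intro z
    ring
  have hlin : IsP (fun x => kOne α * (α - 1/2) * x + c1) :=
    pr_Padd hE (pr_smulP hE _ (pr_id hE)) (pr_const hE c1)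
  have hu1 : IsP (fun y' => 5 * Q y' ^ 4 * (kOne α * (α - 1/2) * y')) :=
    pr_PP hE (pr_smulP hE 5 hQ4) (pr_smulP hE _ (pr_id hE))
  have hu2 : IsP (fun y' => 10 * Q y' ^ 3 * (kOne α + wOne α R P y') ^ 2) := by
    refine pr_congrP (pr_PP hE (pr_smulP hE 10 (pr_EP hE (pr_Q3 hQ hE))) (pr_PP hE hg hg)) ?_
    intro y
    unfold prG
    ring
  have hq : IsP (fun y' => 5 * Q y' ^ 4) := pr_smulP hE 5 hQ4
  have e : Lop (fun x => kOne α * (α - 1/2) * x + c1 + ω x)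
      = fun x => ((kOne α * (α - 1/2) * x + c1)
          - (5 * Q x ^ 4 * (kOne α * (α - 1/2) * x) + c1 * (5 * Q x ^ 4))) + Lop ω x := by
    funext x
    rw [pr_Lop_add hE hlin hωP x, pr_Lop_id]
    ring
  rw [e]
  have d1 : HasDerivAt (fun x => kOne α * (α - 1/2) * x + c1) (kOne α * (α - 1/2)) y := by
    have := ((hasDerivAt_id' y).const_mul (kOne α * (α - 1/2))).add_const c1
    rw [mul_one] at this
    exact this
  have d2 := (pr_hd hu1 y).add ((pr_hd hq y).const_mul c1)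
  have d3 := pr_hd (pr_Lop_P hQ hE hωP) y
  refine ((d1.sub d2).add d3).congr_deriv ?_
  rw [heq y, pr_deriv_add hu1 hu2 y]
  have e5 : Lam (fun x => kOne α + wOne α R P x) y
      = (kOne α + wOne α R P y) / 2 + y * deriv (wOne α R P) y := by
    have e6 : deriv (fun x => kOne α + wOne α R P x) y = deriv (wOne α R P) y :=
      pr_g_deriv hE α h y
    unfold Lam
    rw [e6]
  rw [e5]
  ring

/-- **PAIR.** -/
theorem thm_PAIR (hQ : S_QF) (hE : S_ECL1) (_hE2 : S_ECL2) : S_PAIR := by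
  intro α R P h
  refine ⟨?_, ?_, pr_part_b hQ hE α h, pr_part_c hQ hE α h, ?_, ?_⟩
  · refine ⟨Polynomial.C (-(2 * kOne α)), ?_⟩
    unfold HasTail
    refine pr_congrE (pr_w_e hE α h) ?_
    intro y
    simp only [Polynomial.eval_C]
    ring
  · intro y
    have e : (fun y' => 5 * Q y' ^ 4 * kOne α - Lop (wOne α R P) y')
        = fun y' => (2 * α + 1) * Lop P y' := by
      funext z
      rw [pr_Lw hE α h]
      ring
    rw [e]
    exact ((h.P_eq y).const_mul (2 * α + 1)).deriv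
  · intro y
    have e : (fun y' => 5 * Q y' ^ 4 - Lop R y') = fun _ => 0 := by
      funext z
      rw [pr_LR hE h]
      ring
    rw [e]
    simp
  · intro c1 ω hω heq y
    exact pr_part_e hQ hE α h c1 ω hω heq y

end Pool.Agent.Helper41.KV
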