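import Pool.Agent.Helper33.KV.GoalsF

/-!
# Project KV, section F, goal WEAKE: the weak equation of the remainder
-/

namespace Pool.Agent.Helper33.KV

open Real MeasureTheory Pool.Agent.Helper41.KV

theorem we_Q (hQ : S_QF) : IsE Q := by
  obtain ⟨h1, -, -, -, -, -, h7, -⟩ := hQ
  refine ⟨h1, fun k μ hμ => ?_⟩
  obtain ⟨C, hC⟩ := h7 k
  refine ⟨|C|, fun y => (hC y).trans ?_⟩
  calc C * exp (-|y|) ≤ |C| * exp (-|y|) :=
        mul_le_mul_of_nonneg_right (le_abs_self C) (exp_pos _).le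
    _ ≤ |C| * exp (-(μ * |y|)) := by
      apply mul_le_mul_of_nonneg_left _ (abs_nonneg C)
      apply exp_le_exp.mpr
      nlinarith [abs_nonneg y]

theorem we_EP (hE : S_ECL1) {f : ℝ → ℝ} (h : IsE f) : IsP f := hE.2.1 f (hE.1 f h)

theorem we_Eadd (hE : S_ECL1) {f g : ℝ → ℝ} (hf : IsE f) (hg : IsE g) :
    IsE (fun y => f y + g y) := hE.2.2.1 f g hf hg

theorem we_Padd (hE : S_ECL1) {f g : ℝ → ℝ} (hf : IsP f) (hg : IsP g) :
    IsP (fun y => f y + g y) := hE.2.2.2.2.1 f g hf hg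

theorem we_PE (hE : S_ECL1) {f g : ℝ → ℝ} (hf : IsP f) (hg : IsE g) :
    IsE (fun y => f y * g y) := hE.2.2.2.2.2.1 f g hf hg

theorem we_PP (hE : S_ECL1) {f g : ℝ → ℝ} (hf : IsP f) (hg : IsP g) :
    IsP (fun y => f y * g y) := hE.2.2.2.2.2.2.2.1 f g hf hg

theorem we_dE (hE : S_ECL1) {f : ℝ → ℝ} (hf : IsE f) : IsE (deriv f) :=
  hE.2.2.2.2.2.2.2.2.1 f hf

theorem we_dP (hE : S_ECL1) {f : ℝ → ℝ} (hf : IsP f) : IsP (deriv f) :=
  hE.2.2.2.2.2.2.2.2.2.2.1 f hf

theorem we_const (hE : S_ECL1) (c : ℝ) : IsP (fun _ => c) := by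
  have := hE.2.2.2.2.2.2.2.2.2.2.2.1 (Polynomial.C c)
  simpa using this

theorem we_id (hE : S_ECL1) : IsP (fun y : ℝ => y) := by
  have := hE.2.2.2.2.2.2.2.2.2.2.2.1 Polynomial.X
  simpa using this

theorem we_tanh (hE : S_ECL1) : IsP (fun y => Real.tanh (2 * y)) :=
  hE.2.2.2.2.2.2.2.2.2.2.2.2.1

theorem we_sech (hE : S_ECL1) : IsE (fun y => 1 / (Real.cosh (2 * y)) ^ 2) :=
  hE.2.2.2.2.2.2.2.2.2.2.2.2.2.1

theorem we_intE (hE : S_ECL1) {f : ℝ → ℝ} (hf : IsE f) : Integrable f :=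
  hE.2.2.2.2.2.2.2.2.2.2.2.2.2.2.2.2 f hf

theorem we_smulE (hE : S_ECL1) (c : ℝ) {f : ℝ → ℝ} (hf : IsE f) : IsE (fun y => c * f y) :=
  we_PE hE (we_const hE c) hf

theorem we_smulP (hE : S_ECL1) (c : ℝ) {f : ℝ → ℝ} (hf : IsP f) : IsP (fun y => c * f y) :=
  we_PP hE (we_const hE c) hf

theorem we_congrE {f g : ℝ → ℝ} (hf : IsE f) (h : ∀ y, g y = f y) : IsE g := by
  have : g = f := funext h
  rw [this]; exact hf

theorem we_congrP {f g : ℝ → ℝ} (hf : IsP f) (h : ∀ y, g y = f y) : IsP g := by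
  have : g = f := funext h
  rw [this]; exact hf

theorem we_hd {f : ℝ → ℝ} (hf : IsP f) (y : ℝ) : HasDerivAt f (deriv f y) y :=
  ((hf.1.differentiable (by simp)) y).hasDerivAt

theorem we_chi (hE : S_ECL1) : IsP chiM := by
  refine we_congrP (we_Padd hE (we_const hE (1/2)) (we_smulP hE (-1/2) (we_tanh hE))) ?_
  intro y
  unfold chiM
  ring

theorem we_tanh_deriv (y : ℝ) :
    HasDerivAt (fun y => Real.tanh (2 * y)) (2 * (1 / (Real.cosh (2 * y)) ^ 2)) y := by
  have hc : Real.cosh (2 * y) ≠ 0 := (Real.cosh_pos _).ne'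
  have h2 : HasDerivAt (fun y : ℝ => 2 * y) 2 y := by
    simpa using (hasDerivAt_id y).const_mul (2 : ℝ)
  have hs := h2.sinh
  have hch := h2.cosh
  have h := hs.div hch hc
  have he : (fun y => Real.tanh (2 * y)) = fun y => Real.sinh (2 * y) / Real.cosh (2 * y) := by
    funext z
    exact Real.tanh_eq_sinh_div_cosh _
  rw [he]
  refine h.congr_deriv ?_
  have := Real.cosh_sq_sub_sinh_sq (2 * y)
  field_simp
  nlinarith [this]

theorem we_chi_hd (y : ℝ) : HasDerivAt chiM (-(1 / (Real.cosh (2 * y)) ^ 2)) y := by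
  have h := ((we_tanh_deriv y).const_sub 1).div_const 2
  have he : chiM = fun y => (1 - Real.tanh (2 * y)) / 2 := rfl
  rw [he]
  refine h.congr_deriv ?_
  ring

theorem we_chi_sq (y : ℝ) : (1 - 2 * chiM y) ^ 2 = 1 - 1 / (Real.cosh (2 * y)) ^ 2 := by
  unfold chiM
  have hc : Real.cosh (2 * y) ≠ 0 := (Real.cosh_pos _).ne'
  rw [Real.tanh_eq_sinh_div_cosh]
  have := Real.cosh_sq_sub_sinh_sq (2 * y)
  field_simp
  nlinarith [this]

theorem we_int_deriv (hE : S_ECL1) {F : ℝ → ℝ} (hF : IsE F) : (∫ y, deriv F y) = 0 :=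
  integral_eq_zero_of_hasDerivAt_of_integrable (fun y => we_hd (we_EP hE hF) y)
    (we_intE hE (we_dE hE hF)) (we_intE hE hF)

theorem we_deriv_mul {u v : ℝ → ℝ} (hu : IsP u) (hv : IsP v) (y : ℝ) :
    deriv (fun x => u x * v x) y = deriv u y * v y + u y * deriv v y :=
  ((we_hd hu y).mul (we_hd hv y)).deriv

theorem we_deriv_add {u v : ℝ → ℝ} (hu : IsP u) (hv : IsP v) (y : ℝ) :
    deriv (fun x => u x + v x) y = deriv u y + deriv v y :=
  ((we_hd hu y).add (we_hd hv y)).deriv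

theorem we_deriv_smul {u : ℝ → ℝ} (c : ℝ) (hu : IsP u) (y : ℝ) :
    deriv (fun x => c * u x) y = c * deriv u y :=
  ((we_hd hu y).const_mul c).deriv

theorem we_ibp (hE : S_ECL1) {u v : ℝ → ℝ} (hu : IsP u) (hv : IsE v) :
    (∫ y, deriv u y * v y) = - ∫ y, u y * deriv v y := by
  have h := we_int_deriv hE (we_PE hE hu hv)
  have h2 : (∫ y, deriv (fun y => u y * v y) y)
      = ∫ y, (deriv u y * v y + u y * deriv v y) := by
    congr 1
    funext y
    exact we_deriv_mul hu (we_EP hE hv) y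
  rw [h2, integral_add (we_intE hE (we_PE hE (we_dP hE hu) hv))
    (we_intE hE (we_PE hE hu (we_dE hE hv)))] at h
  linarith

theorem we_Q4 (hQ : S_QF) (hE : S_ECL1) : IsE (fun y => Q y ^ 4) := by
  have h := we_EP hE (we_Q hQ)
  refine we_congrE (we_PE hE (we_PP hE (we_PP hE h h) h) (we_Q hQ)) ?_
  intro y
  ring

theorem we_Q3 (hQ : S_QF) (hE : S_ECL1) : IsE (fun y => Q y ^ 3) := by
  have h := we_EP hE (we_Q hQ)
  refine we_congrE (we_PE hE (we_PP hE h h) (we_Q hQ)) ?_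
  intro y
  ring

theorem we_Lop_P (hQ : S_QF) (hE : S_ECL1) {f : ℝ → ℝ} (hf : IsP f) : IsP (Lop f) := by
  have h1 := we_smulP hE (-1) (we_dP hE (we_dP hE hf))
  have h2 := we_smulP hE (-5) (we_PP hE (we_EP hE (we_Q4 hQ hE)) hf)
  refine we_congrP (we_Padd hE (we_Padd hE h1 hf) h2) ?_
  intro y
  unfold Lop
  ring

theorem we_Lop_E (hQ : S_QF) (hE : S_ECL1) {f : ℝ → ℝ} (hf : IsE f) : IsE (Lop f) := by
  have h1 := we_smulE hE (-1) (we_dE hE (we_dE hE hf))
  have h2 := we_smulE hE (-5) (we_PE hE (we_EP hE (we_Q4 hQ hE)) hf)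
  refine we_congrE (we_Eadd hE (we_Eadd hE h1 hf) h2) ?_
  intro y
  unfold Lop
  ring

theorem we_Lop_add (hE : S_ECL1) {f g : ℝ → ℝ} (hf : IsP f) (hg : IsP g) (y : ℝ) :
    Lop (fun x => f x + g x) y = Lop f y + Lop g y := by
  have h1 : deriv (fun x => f x + g x) = fun x => deriv f x + deriv g x :=
    funext fun x => we_deriv_add hf hg x
  unfold Lop
  rw [h1, we_deriv_add (we_dP hE hf) (we_dP hE hg) y]
  ring

theorem we_Lop_smul (hE : S_ECL1) {f : ℝ → ℝ} (c : ℝ) (hf : IsP f) (y : ℝ) :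
    Lop (fun x => c * f x) y = c * Lop f y := by
  have h1 : deriv (fun x => c * f x) = fun x => c * deriv f x :=
    funext fun x => we_deriv_smul c hf x
  unfold Lop
  rw [h1, we_deriv_smul c (we_dP hE hf) y]
  ring

theorem we_Lop_id (y c d : ℝ) : Lop (fun x => c * x + d) y = c * y + d - 5 * Q y ^ 4 * (c * y + d) := by
  have h1 : deriv (fun x : ℝ => c * x + d) = fun _ => c := by
    funext x
    have := ((hasDerivAt_id' x).const_mul c).add_const d
    rw [mul_one] at this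
    exact this.deriv
  unfold Lop
  rw [h1]
  simp

/-- `L (f') = (L f)' + 20 Q^3 Q' f`. -/
theorem we_Lop_deriv (hQ : S_QF) (hE : S_ECL1) {f : ℝ → ℝ} (hf : IsP f) (y : ℝ) :
    Lop (deriv f) y = deriv (Lop f) y + 20 * Q y ^ 3 * deriv Q y * f y := by
  have hQP := we_EP hE (we_Q hQ)
  have h4 : HasDerivAt (fun x => Q x ^ 4) (4 * Q y ^ 3 * deriv Q y) y := by
    have := (we_hd hQP y).fun_pow 4
    simpa using this
  have hd : HasDerivAt (Lop f) (- deriv (deriv (deriv f)) y + deriv f y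
      - (5 * (4 * Q y ^ 3 * deriv Q y) * f y + 5 * Q y ^ 4 * deriv f y)) y := by
    have h1 := (we_hd (we_dP hE (we_dP hE hf)) y).neg
    have h2 := h1.add (we_hd hf y)
    have h3 := (h4.const_mul 5).mul (we_hd hf y)
    exact h2.sub h3
  rw [hd.deriv]
  unfold Lop
  ring

/-- Self-adjointness. -/
theorem we_self (hQ : S_QF) (hE : S_ECL1) {g h : ℝ → ℝ} (hg : IsP g) (hh : IsE h) :
    (∫ y, g y * Lop h y) = ∫ y, Lop g y * h y := by
  have i1 := we_ibp hE (we_dP hE hg) hh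
  have i2 := we_ibp hE hg (we_dE hE hh)
  have e1 : (∫ y, deriv (deriv g) y * h y) = ∫ y, g y * deriv (deriv h) y := by
    rw [i1, i2, neg_neg]
  have hE4 := we_EP hE (we_Q4 hQ hE)
  have a1 : IsE (fun y => g y * deriv (deriv h) y) := we_PE hE hg (we_dE hE (we_dE hE hh))
  have a2 : IsE (fun y => deriv (deriv g) y * h y) := we_PE hE (we_dP hE (we_dP hE hg)) hh
  have a3 : IsE (fun y => (g y * (1 + -5 * Q y ^ 4)) * h y) :=
    we_PE hE (we_PP hE hg (we_Padd hE (we_const hE 1) (we_smulP hE (-5) hE4))) hh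
  have l1 : (∫ y, g y * Lop h y)
      = (∫ y, (g y * (1 + -5 * Q y ^ 4)) * h y) - ∫ y, g y * deriv (deriv h) y := by
    rw [← integral_sub (we_intE hE a3) (we_intE hE a1)]
    congr 1
    funext y
    unfold Lop
    ring
  have l2 : (∫ y, Lop g y * h y)
      = (∫ y, (g y * (1 + -5 * Q y ^ 4)) * h y) - ∫ y, deriv (deriv g) y * h y := by
    rw [← integral_sub (we_intE hE a3) (we_intE hE a2)]
    congr 1
    funext y
    unfold Lop
    ring
  rw [l1, l2, e1]


/-! ### Sobolev bound and closure properties of `HInf` -/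

theorem we_sup {h h' : ℝ → ℝ} (hd : ∀ x, HasDerivAt h (h' x) x) (h1 : MemLp h 2)
    (h2 : MemLp h' 2) (x : ℝ) : h x ^ 2 ≤ (∫ x, h x ^ 2) + ∫ x, h' x ^ 2 := by
  have i1 : Integrable (fun x => h x ^ 2) := h1.integrable_sq
  have i2 : Integrable (fun x => h' x ^ 2) := h2.integrable_sq
  have i3 : Integrable (fun x => 2 * (h x * h' x)) := (h1.integrable_mul h2).const_mul 2
  have hd2 : ∀ y ∈ Set.Iic x, HasDerivAt (fun x => h x ^ 2) (2 * (h y * h' y)) y := by
    intro y _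
    have := (hd y).fun_pow 2
    refine this.congr_deriv ?_
    simp
    ring
  have ht := tendsto_zero_of_hasDerivAt_of_integrableOn_Iic hd2 i3.integrableOn i1.integrableOn
  have he := integral_Iic_of_hasDerivAt_of_tendsto' hd2 i3.integrableOn ht
  rw [sub_zero] at he
  rw [← he, ← integral_add i1 i2]
  calc (∫ y in Set.Iic x, 2 * (h y * h' y)) ≤ ∫ y in Set.Iic x, (h y ^ 2 + h' y ^ 2) := by
        apply setIntegral_mono i3.integrableOn (i1.add i2).integrableOn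
        intro y
        show 2 * (h y * h' y) ≤ h y ^ 2 + h' y ^ 2
        nlinarith [sq_nonneg (h y - h' y)]
    _ ≤ ∫ y, (h y ^ 2 + h' y ^ 2) := by
        apply setIntegral_le_integral (i1.add i2)
        refine Filter.Eventually.of_forall (fun y => ?_)
        show 0 ≤ h y ^ 2 + h' y ^ 2
        positivity

theorem we_smooth_iter {g : ℝ → ℝ} (h : ContDiff ℝ (⊤ : ℕ∞) g) (k : ℕ) :
    ContDiff ℝ (⊤ : ℕ∞) (iteratedDeriv k g) := by
  induction k with
  | zero => simpa using h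
  | succ k ih =>
    rw [iteratedDeriv_succ]
    exact (contDiff_infty_iff_deriv.mp ih).2

theorem we_iter_hd {g : ℝ → ℝ} (h : ContDiff ℝ (⊤ : ℕ∞) g) (k : ℕ) (x : ℝ) :
    HasDerivAt (iteratedDeriv k g) (iteratedDeriv (k + 1) g x) x := by
  rw [iteratedDeriv_succ]
  exact (((we_smooth_iter h k).differentiable (by simp)) x).hasDerivAt

theorem we_hinf_bdd {u : ℝ → ℝ → ℝ} {t1 t2 : ℝ} (H : HInf u t1 t2) (k : ℕ) :
    ∃ M : ℝ, 0 ≤ M ∧ ∀ t ∈ Set.Icc t1 t2, ∀ x, |iteratedDeriv k (u t) x| ≤ M := by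
  obtain ⟨C1, hC1⟩ := H.bound k
  obtain ⟨C2, hC2⟩ := H.bound (k + 1)
  refine ⟨Real.sqrt (C1 + C2), Real.sqrt_nonneg _, fun t ht x => ?_⟩
  apply Real.abs_le_sqrt
  have := we_sup (fun x => we_iter_hd (H.smooth t ht) k x) (H.memLp k t ht)
    (H.memLp (k + 1) t ht) x
  linarith [hC1 t ht, hC2 t ht]

theorem we_hinf_congr {u v : ℝ → ℝ → ℝ} {t1 t2 : ℝ} (H : HInf u t1 t2) (h : ∀ t x, v t x = u t x) :
    HInf v t1 t2 := by
  have : v = u := funext fun t => funext fun x => h t x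
  rw [this]; exact H

theorem we_hinf_shift {u : ℝ → ℝ → ℝ} {t1 t2 : ℝ} (H : HInf u t1 t2) :
    HInf (fun t => deriv (u t)) t1 t2 where
  smooth := fun t ht => (contDiff_infty_iff_deriv.mp (H.smooth t ht)).2
  cont := fun k => by
    have := H.cont (k + 1)
    simp only [iteratedDeriv_succ'] at this
    exact this
  memLp := fun k t ht => by
    have := H.memLp (k + 1) t ht
    rw [iteratedDeriv_succ'] at this
    exact this
  bound := fun k => by
    have := H.bound (k + 1)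
    simp only [iteratedDeriv_succ'] at this
    exact this

theorem we_hinf_neg {u : ℝ → ℝ → ℝ} {t1 t2 : ℝ} (H : HInf u t1 t2) :
    HInf (fun t x => - u t x) t1 t2 := by
  have hk : ∀ k t x, iteratedDeriv k (fun x => - u t x) x = - iteratedDeriv k (u t) x :=
    fun k t x => iteratedDeriv_fun_neg k (u t) x
  refine ⟨fun t ht => (H.smooth t ht).neg, fun k => ?_, fun k t ht => ?_, fun k => ?_⟩
  · refine (H.cont k).neg.congr ?_
    intro p _
    exact hk k p.1 p.2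
  · have e : iteratedDeriv k (fun x => - u t x) = fun x => - iteratedDeriv k (u t) x :=
      funext (hk k t)
    rw [e]
    exact (H.memLp k t ht).neg
  · obtain ⟨C, hC⟩ := H.bound k
    refine ⟨C, fun t ht => ?_⟩
    refine le_trans (le_of_eq ?_) (hC t ht)
    congr 1
    funext x
    rw [hk]
    ring

/-- The conditions of `HInf` at level `k`. -/
def WeHK (k : ℕ) (w : ℝ → ℝ → ℝ) (t1 t2 : ℝ) : Prop :=
  ContinuousOn (fun p : ℝ × ℝ => iteratedDeriv k (w p.1) p.2) (Set.Icc t1 t2 ×ˢ Set.univ) ∧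
  (∀ t ∈ Set.Icc t1 t2, MemLp (iteratedDeriv k (w t)) 2) ∧
  ∃ C : ℝ, ∀ t ∈ Set.Icc t1 t2, (∫ x, (iteratedDeriv k (w t) x) ^ 2) ≤ C

theorem we_hk_of {u : ℝ → ℝ → ℝ} {t1 t2 : ℝ} (H : HInf u t1 t2) (k : ℕ) : WeHK k u t1 t2 :=
  ⟨H.cont k, H.memLp k, H.bound k⟩

theorem we_hk_congr {k l : ℕ} {u v : ℝ → ℝ → ℝ} {t1 t2 : ℝ} (H : WeHK k u t1 t2)
    (h : ∀ t ∈ Set.Icc t1 t2, ∀ x, iteratedDeriv l (v t) x = iteratedDeriv k (u t) x) :
    WeHK l v t1 t2 := by
  obtain ⟨h1, h2, C, hC⟩ := H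
  have e : ∀ t ∈ Set.Icc t1 t2, iteratedDeriv l (v t) = iteratedDeriv k (u t) :=
    fun t ht => funext (h t ht)
  refine ⟨h1.congr ?_, fun t ht => ?_, C, fun t ht => ?_⟩
  · intro p hp
    exact h p.1 hp.1 p.2
  · rw [e t ht]; exact h2 t ht
  · rw [e t ht]; exact hC t ht

theorem we_hk_add {k : ℕ} {u v : ℝ → ℝ → ℝ} {t1 t2 : ℝ}
    (su : ∀ t ∈ Set.Icc t1 t2, ContDiff ℝ (⊤ : ℕ∞) (u t))
    (sv : ∀ t ∈ Set.Icc t1 t2, ContDiff ℝ (⊤ : ℕ∞) (v t))
    (H : WeHK k u t1 t2) (G : WeHK k v t1 t2) :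
    WeHK k (fun t x => u t x + v t x) t1 t2 := by
  have hk : ∀ t ∈ Set.Icc t1 t2, ∀ x, iteratedDeriv k (fun x => u t x + v t x) x
      = iteratedDeriv k (u t) x + iteratedDeriv k (v t) x := by
    intro t ht x
    exact iteratedDeriv_add
      (((su t ht).of_le (by exact_mod_cast le_top)).contDiffAt)
      (((sv t ht).of_le (by exact_mod_cast le_top)).contDiffAt)
  obtain ⟨h1, h2, C, hC⟩ := H
  obtain ⟨g1, g2, D, hD⟩ := G
  refine ⟨?_, fun t ht => ?_, 2 * C + 2 * D, fun t ht => ?_⟩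
  · refine (h1.add g1).congr ?_
    intro p hp
    exact hk p.1 hp.1 p.2
  · have e : iteratedDeriv k (fun x => u t x + v t x)
        = fun x => iteratedDeriv k (u t) x + iteratedDeriv k (v t) x := funext (hk t ht)
    rw [e]
    exact (h2 t ht).add (g2 t ht)
  · have i1 := (h2 t ht).integrable_sq
    have i2 := (g2 t ht).integrable_sq
    calc (∫ x, iteratedDeriv k (fun x => u t x + v t x) x ^ 2)
        ≤ ∫ x, (2 * iteratedDeriv k (u t) x ^ 2 + 2 * iteratedDeriv k (v t) x ^ 2) := by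
          apply integral_mono_of_nonneg
          · exact Filter.Eventually.of_forall (fun x => by positivity)
          · exact (i1.const_mul 2).add (i2.const_mul 2)
          · apply Filter.Eventually.of_forall
            intro x
            simp only
            rw [hk t ht x]
            nlinarith [sq_nonneg (iteratedDeriv k (u t) x - iteratedDeriv k (v t) x)]
      _ = 2 * (∫ x, iteratedDeriv k (u t) x ^ 2) + 2 * ∫ x, iteratedDeriv k (v t) x ^ 2 := by
          rw [integral_add (i1.const_mul 2) (i2.const_mul 2), integral_const_mul,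
            integral_const_mul]
      _ ≤ _ := by linarith [hC t ht, hD t ht]

theorem we_hinf_add {u v : ℝ → ℝ → ℝ} {t1 t2 : ℝ} (H : HInf u t1 t2) (G : HInf v t1 t2) :
    HInf (fun t x => u t x + v t x) t1 t2 := by
  have h := fun k => we_hk_add H.smooth G.smooth (we_hk_of H k) (we_hk_of G k)
  exact ⟨fun t ht => (H.smooth t ht).add (G.smooth t ht), fun k => (h k).1,
    fun k => (h k).2.1, fun k => (h k).2.2⟩

theorem we_hk_mul (k : ℕ) : ∀ (u v : ℝ → ℝ → ℝ) (t1 t2 : ℝ), HInf u t1 t2 → HInf v t1 t2 →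
    WeHK k (fun t x => u t x * v t x) t1 t2 := by
  induction k with
  | zero =>
    intro u v t1 t2 H G
    obtain ⟨M, hM0, hM⟩ := we_hinf_bdd H 0
    obtain ⟨C, hC⟩ := G.bound 0
    have h0 := H.cont 0
    have g0 := G.cont 0
    simp only [iteratedDeriv_zero] at h0 g0 hM hC
    refine ⟨?_, fun t ht => ?_, M ^ 2 * C, fun t ht => ?_⟩
    · simp only [iteratedDeriv_zero]
      exact h0.mul g0
    · have hv := G.memLp 0 t ht
      simp only [iteratedDeriv_zero] at hv ⊢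
      refine hv.of_le_mul (c := M) ?_ ?_
      · exact ((H.smooth t ht).continuous.mul (G.smooth t ht).continuous).aestronglyMeasurable
      · apply Filter.Eventually.of_forall
        intro x
        simp only [norm_mul, Real.norm_eq_abs]
        exact mul_le_mul_of_nonneg_right (hM t ht x) (abs_nonneg _)
    · simp only [iteratedDeriv_zero]
      have hv := G.memLp 0 t ht
      simp only [iteratedDeriv_zero] at hv
      calc (∫ x, (u t x * v t x) ^ 2) ≤ ∫ x, M ^ 2 * v t x ^ 2 := by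
            apply integral_mono_of_nonneg
            · exact Filter.Eventually.of_forall (fun x => by positivity)
            · exact hv.integrable_sq.const_mul _
            · apply Filter.Eventually.of_forall
              intro x
              simp only
              rw [mul_pow]
              apply mul_le_mul_of_nonneg_right _ (sq_nonneg _)
              exact sq_le_sq' (abs_le.mp (hM t ht x)).1 (abs_le.mp (hM t ht x)).2
        _ = M ^ 2 * ∫ x, v t x ^ 2 := integral_const_mul _ _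
        _ ≤ _ := mul_le_mul_of_nonneg_left (hC t ht) (sq_nonneg _)
  | succ k ih =>
    intro u v t1 t2 H G
    have h1 := ih _ _ t1 t2 (we_hinf_shift H) G
    have h2 := ih _ _ t1 t2 H (we_hinf_shift G)
    have su : ∀ t ∈ Set.Icc t1 t2, ContDiff ℝ (⊤ : ℕ∞) (fun x => deriv (u t) x * v t x) :=
      fun t ht => (contDiff_infty_iff_deriv.mp (H.smooth t ht)).2.mul (G.smooth t ht)
    have sv : ∀ t ∈ Set.Icc t1 t2, ContDiff ℝ (⊤ : ℕ∞) (fun x => u t x * deriv (v t) x) :=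
      fun t ht => (H.smooth t ht).mul (contDiff_infty_iff_deriv.mp (G.smooth t ht)).2
    have h3 := we_hk_add su sv h1 h2
    refine we_hk_congr h3 ?_
    intro t ht x
    rw [iteratedDeriv_succ']
    have e : deriv (fun x => u t x * v t x)
        = fun x => deriv (u t) x * v t x + u t x * deriv (v t) x := by
      funext y
      exact (((((H.smooth t ht).differentiable (by simp)) y).hasDerivAt).mul
        ((((G.smooth t ht).differentiable (by simp)) y).hasDerivAt)).deriv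
    rw [e]

theorem we_hinf_mul {u v : ℝ → ℝ → ℝ} {t1 t2 : ℝ} (H : HInf u t1 t2) (G : HInf v t1 t2) :
    HInf (fun t x => u t x * v t x) t1 t2 := by
  have h := fun k => we_hk_mul k u v t1 t2 H G
  exact ⟨fun t ht => (H.smooth t ht).mul (G.smooth t ht), fun k => (h k).1,
    fun k => (h k).2.1, fun k => (h k).2.2⟩

theorem we_hinf_flux {u : ℝ → ℝ → ℝ} {t1 t2 : ℝ} (H : HInf u t1 t2) :
    HInf (fun t x => - deriv (flux (u t)) x) t1 t2 := by
  have h2 := we_hinf_mul H H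
  have h4 := we_hinf_mul h2 h2
  have h5 := we_hinf_mul h4 H
  have hs := we_hinf_shift (we_hinf_shift H)
  have hf : HInf (fun t => flux (u t)) t1 t2 := by
    refine we_hinf_congr (we_hinf_add hs h5) ?_
    intro t x
    unfold flux
    rw [iteratedDeriv_succ, iteratedDeriv_one]
    ring
  exact we_hinf_neg (we_hinf_shift hf)

theorem we_hinf_dflux {u : ℝ → ℝ → ℝ} {t1 t2 : ℝ} (H : HInf u t1 t2) :
    HInf (fun t x => deriv (flux (u t)) x) t1 t2 := by
  refine we_hinf_congr (we_hinf_neg (we_hinf_flux H)) ?_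
  intro t x
  ring

/-- All derivatives bounded implies `IsP`, after an affine change of variables. -/
theorem we_inn_P {α : ℝ} {u : ℝ → ℝ → ℝ} {t1 t2 : ℝ} (H : HInf u t1 t2) {t : ℝ}
    (ht : t ∈ Set.Icc t1 t2) : IsP (inn α u t) := by
  have hs := H.smooth t ht
  have e : ∀ k, iteratedDeriv k (inn α u t) = fun y =>
      (Real.sqrt (lam α t) * lam α t ^ k) * iteratedDeriv k (u t) (sig α t + lam α t * y) := by
    intro k
    induction k with
    | zero =>
      funext y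
      simp [inn]
    | succ k ih =>
      funext y
      rw [iteratedDeriv_succ, ih]
      have h1 : HasDerivAt (fun y => sig α t + lam α t * y) (lam α t) y := by
        have := ((hasDerivAt_id' y).const_mul (lam α t)).const_add (sig α t)
        rw [mul_one] at this
        exact this
      have h2 := (we_iter_hd hs k (sig α t + lam α t * y)).comp y h1
      have h3 := h2.const_mul (Real.sqrt (lam α t) * lam α t ^ k)
      refine Eq.trans h3.deriv ?_
      ring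
  refine ⟨?_, fun k => ?_⟩
  · unfold inn
    exact contDiff_const.mul (hs.comp (contDiff_const.add (contDiff_const.mul contDiff_id)))
  · obtain ⟨M, hM0, hM⟩ := we_hinf_bdd H k
    refine ⟨0, |Real.sqrt (lam α t) * lam α t ^ k| * M, fun y => ?_⟩
    rw [e k]
    simp only [abs_mul, pow_zero, mul_one]
    rw [← abs_mul]
    exact mul_le_mul_of_nonneg_left (hM t ht _) (abs_nonneg _)

theorem we_iadd (hE : S_ECL1) {f g : ℝ → ℝ} (hf : IsE f) (hg : IsE g) :
    (∫ y, (f y + g y)) = (∫ y, f y) + ∫ y, g y := integral_add (we_intE hE hf) (we_intE hE hg)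

theorem we_isub (hE : S_ECL1) {f g : ℝ → ℝ} (hf : IsE f) (hg : IsE g) :
    (∫ y, (f y - g y)) = (∫ y, f y) - ∫ y, g y := integral_sub (we_intE hE hf) (we_intE hE hg)

theorem we_Esub (hE : S_ECL1) {f g : ℝ → ℝ} (hf : IsE f) (hg : IsE g) :
    IsE (fun y => f y - g y) := by
  refine we_congrE (we_Eadd hE hf (we_smulE hE (-1) hg)) ?_
  intro y
  ring

theorem we_Psub (hE : S_ECL1) {f g : ℝ → ℝ} (hf : IsP f) (hg : IsP g) :
    IsP (fun y => f y - g y) := by
  refine we_congrP (we_Padd hE hf (we_smulP hE (-1) hg)) ?_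
  intro y
  ring

theorem we_Ppow (hE : S_ECL1) {f : ℝ → ℝ} (hf : IsP f) (n : ℕ) : IsP (fun y => f y ^ n) := by
  induction n with
  | zero =>
    refine we_congrP (we_const hE 1) ?_
    intro y
    simp
  | succ n ih =>
    refine we_congrP (we_PP hE ih hf) ?_
    intro y
    ring

theorem we_Lam_E (hE : S_ECL1) {f : ℝ → ℝ} (hf : IsE f) : IsE (Lam f) := by
  refine we_congrE (we_Eadd hE (we_smulE hE (1/2) hf) (we_PE hE (we_id hE) (we_dE hE hf))) ?_
  intro y
  unfold Lam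
  ring

/-- The function `∂^3 f - ∂ f + 5 v^4 ∂ f - (2α+1) ρ Λ f`. -/
noncomputable def WeG (α ρ : ℝ) (v f : ℝ → ℝ) (y : ℝ) : ℝ :=
  deriv (deriv (deriv f)) y - deriv f y + 5 * v y ^ 4 * deriv f y - (2 * α + 1) * ρ * Lam f y

theorem we_G_E (hE : S_ECL1) {v f : ℝ → ℝ} (hv : IsP v) (hf : IsE f) (α ρ : ℝ) :
    IsE (WeG α ρ v f) := by
  have d1 := we_dE hE hf
  have d3 := we_dE hE (we_dE hE d1)
  exact we_Esub hE (we_Eadd hE (we_Esub hE d3 d1)
    (we_PE hE (we_smulP hE 5 (we_Ppow hE hv 4)) d1)) (we_smulE hE _ (we_Lam_E hE hf))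

theorem we_calL_E (hE : S_ECL1) {v τ : ℝ → ℝ} (hv : IsP v) (hτ : IsE τ) (α ρ : ℝ)
    {Dτ : ℝ → ℝ} (hD : IsE Dτ) : IsE (calL α ρ v τ Dτ) := by
  have hq : IsE (fun x => deriv (deriv τ) x - τ x + 5 * v x ^ 4 * τ x) :=
    we_Eadd hE (we_Esub hE (we_dE hE (we_dE hE hτ)) hτ)
      (we_PE hE (we_smulP hE 5 (we_Ppow hE hv 4)) hτ)
  exact we_Esub hE (we_Eadd hE hD (we_dE hE hq)) (we_smulE hE _ (we_Lam_E hE hτ))

/-- `∫ τ G = - ∫ calL(τ, D) f + ∫ D f`. -/
theorem we_pair_tau (hE : S_ECL1) {v τ f Dτ : ℝ → ℝ} (hv : IsP v) (hτ : IsE τ) (hf : IsE f)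
    (hD : IsE Dτ) (α ρ : ℝ) :
    (∫ y, τ y * WeG α ρ v f y) = -(∫ y, calL α ρ v τ Dτ y * f y) + ∫ y, Dτ y * f y := by
  have hq : IsE (fun x => deriv (deriv τ) x - τ x + 5 * v x ^ 4 * τ x) :=
    we_Eadd hE (we_Esub hE (we_dE hE (we_dE hE hτ)) hτ)
      (we_PE hE (we_smulP hE 5 (we_Ppow hE hv 4)) hτ)
  have hτP := we_EP hE hτ
  have hfP := we_EP hE hf
  have f1 := we_dE hE hf
  have f2 := we_dE hE f1
  have τ1 := we_dE hE hτ
  have τ2 := we_dE hE τ1
  have hΦ : IsE (fun x => τ x * deriv (deriv f) x - deriv τ x * deriv f x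
      + (deriv (deriv τ) x - τ x + 5 * v x ^ 4 * τ x) * f x
      - (2 * α + 1) * ρ * (x * (τ x * f x))) :=
    we_Esub hE (we_Eadd hE (we_Esub hE (we_PE hE hτP f2) (we_PE hE (we_EP hE τ1) f1))
      (we_PE hE (we_EP hE hq) hf)) (we_smulE hE _ (we_PE hE (we_id hE) (we_PE hE hτP hf)))
  have h0 := we_int_deriv hE hΦ
  have e1 : IsE (fun y => τ y * WeG α ρ v f y) := we_PE hE hτP (we_G_E hE hv hf α ρ)
  have e2 : IsE (fun y => calL α ρ v τ Dτ y * f y) :=
    we_PE hE (we_EP hE (we_calL_E hE hv hτ α ρ hD)) hf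
  have e3 : IsE (fun y => Dτ y * f y) := we_PE hE (we_EP hE hD) hf
  have key : (∫ y, deriv (fun x => τ x * deriv (deriv f) x - deriv τ x * deriv f x
      + (deriv (deriv τ) x - τ x + 5 * v x ^ 4 * τ x) * f x
      - (2 * α + 1) * ρ * (x * (τ x * f x))) y)
      = (∫ y, τ y * WeG α ρ v f y) + (∫ y, calL α ρ v τ Dτ y * f y) - ∫ y, Dτ y * f y := by
    rw [← we_iadd hE e1 e2, ← we_isub hE (we_Eadd hE e1 e2) e3]
    congr 1
    funext y
    have d1 := (we_hd hτP y).mul (we_hd (we_EP hE f2) y)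
    have d2 := (we_hd (we_EP hE τ1) y).mul (we_hd (we_EP hE f1) y)
    have d3 := (we_hd (we_EP hE hq) y).mul (we_hd hfP y)
    have d4 := (((hasDerivAt_id' y).mul ((we_hd hτP y).mul (we_hd hfP y))).const_mul
      ((2 * α + 1) * ρ))
    have d5 := ((d1.sub d2).add d3).sub d4
    refine Eq.trans d5.deriv ?_
    unfold calL WeG Lam
    simp only [Pi.mul_apply]
    ring
  rw [key] at h0
  linarith

/-- `∫ U'' f' = ∫ U ∂^3 f`. -/
theorem we_ibp2 (hE : S_ECL1) {U f : ℝ → ℝ} (hU : IsP U) (hf : IsE f) :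
    (∫ y, deriv (deriv U) y * deriv f y) = ∫ y, U y * deriv (deriv (deriv f)) y := by
  have h1 := we_ibp hE (we_dP hE hU) (we_dE hE hf)
  have h2 := we_ibp hE hU (we_dE hE (we_dE hE hf))
  rw [h1, h2, neg_neg]

/-- The value of the derivative of `∫ inn u f` in the form used below. -/
theorem we_flux_val (hE : S_ECL1) {U f : ℝ → ℝ} (hU : IsP U) (hf : IsE f) (α ρ : ℝ) :
    (∫ y, (iteratedDeriv 2 U y + U y ^ 5) * deriv f y)
      + (∫ y, U y * (-deriv f y - (2 * α + 1) * ρ * Lam f y))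
    = ∫ y, (U y * (deriv (deriv (deriv f)) y - deriv f y - (2 * α + 1) * ρ * Lam f y)
        + U y ^ 5 * deriv f y) := by
  have f1 := we_dE hE hf
  have f3 := we_dE hE (we_dE hE f1)
  have a1 : IsE (fun y => deriv (deriv U) y * deriv f y) :=
    we_PE hE (we_dP hE (we_dP hE hU)) f1
  have a2 : IsE (fun y => U y ^ 5 * deriv f y) := we_PE hE (we_Ppow hE hU 5) f1
  have a3 : IsE (fun y => U y * deriv (deriv (deriv f)) y) := we_PE hE hU f3
  have a4 : IsE (fun y => U y * (-deriv f y - (2 * α + 1) * ρ * Lam f y)) := by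
    refine we_PE hE hU (we_Esub hE ?_ (we_smulE hE _ (we_Lam_E hE hf)))
    refine we_congrE (we_smulE hE (-1) f1) ?_
    intro y
    ring
  have e1 : (∫ y, (iteratedDeriv 2 U y + U y ^ 5) * deriv f y)
      = (∫ y, deriv (deriv U) y * deriv f y) + ∫ y, U y ^ 5 * deriv f y := by
    rw [← we_iadd hE a1 a2]
    congr 1
    funext y
    rw [iteratedDeriv_succ, iteratedDeriv_one]
    ring
  rw [e1, we_ibp2 hE hU hf, ← we_iadd hE a3 a2, ← we_iadd hE (we_Eadd hE a3 a2) a4]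
  congr 1
  funext y
  ring

theorem we_inn_neg (α : ℝ) (g : ℝ → ℝ → ℝ) (t y : ℝ) :
    inn α (fun t x => - g t x) t y = - inn α g t y := by
  unfold inn
  ring

theorem we_inn_add (α : ℝ) (g h : ℝ → ℝ → ℝ) (t y : ℝ) :
    inn α (fun t x => g t x + h t x) t y = inn α g t y + inn α h t y := by
  unfold inn
  ring

/-- Derivative of `∫ inn u f`. -/
theorem we_Du (hE : S_ECL1) (hC : S_CURVE) (hW : S_WEAK) (hF : S_FLUXP) {α : ℝ} (h0 : 0 < α)
    (h1 : α < 1) {u : ℝ → ℝ → ℝ} {t1 t2 : ℝ} (ht1 : 0 < t1) (h12 : t1 < t2)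
    (H : SmoothSol u t1 t2) {f : ℝ → ℝ} (hf : IsE f) {t : ℝ} (ht : t ∈ Set.Icc t1 t2) :
    HasDerivWithinAt (fun τ => ∫ y, inn α u τ y * f y)
      ((1 / lam α t ^ 3) * ∫ y, (inn α u t y * (deriv (deriv (deriv f)) y - deriv f y
          - (2 * α + 1) * rho α t * Lam f y) + inn α u t y ^ 5 * deriv f y))
      (Set.Icc t1 t2) t := by
  have htp : 0 < t := lt_of_lt_of_le ht1 ht.1
  have hlam : 0 < lam α t := ((hC α h0 h1).1 t htp).2.1
  have hl3 : lam α t ^ 3 ≠ 0 := (pow_pos hlam 3).ne'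
  have h := hW α h0 h1 u _ t1 t2 ht1 h12 H.hinf (we_hinf_flux H.hinf) H.eqn f hf t ht
  refine h.congr_deriv ?_
  have e := (hF α h0 h1 t htp u (H.hinf.smooth t ht)).2 (fun k => H.hinf.memLp k t ht) f hf
  have e2 : (∫ y, inn α (fun t x => - deriv (flux (u t)) x) t y * f y)
      = - ∫ y, inn α (fun t x => deriv (flux (u t)) x) t y * f y := by
    rw [← integral_neg]
    congr 1
    funext y
    rw [we_inn_neg α (fun t x => deriv (flux (u t)) x) t y]
    ring
  rw [← we_flux_val hE (we_inn_P H.hinf ht) hf α (rho α t), e2]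
  have e3 : (∫ y, inn α (fun t x => deriv (flux (u t)) x) t y * f y)
      = (1 / lam α t ^ 3) * -∫ y, (iteratedDeriv 2 (inn α u t) y + inn α u t y ^ 5) * deriv f y := by
    rw [← e]
    field_simp
  rw [e3]
  ring

/-- Derivative of `∫ inn W f`. -/
theorem we_DW (hE : S_ECL1) (hC : S_CURVE) (hW : S_WEAK) (hF : S_FLUXP) {α : ℝ} (h0 : 0 < α)
    (h1 : α < 1) {W Wt : ℝ → ℝ → ℝ} {t1 t2 : ℝ} (ht1 : 0 < t1) (h12 : t1 < t2)
    (H : HInf W t1 t2) (Ht : HInf Wt t1 t2) (HT : HasTimeDeriv W Wt t1 t2)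
    {f : ℝ → ℝ} (hf : IsE f) {t : ℝ} (ht : t ∈ Set.Icc t1 t2) :
    HasDerivWithinAt (fun τ => ∫ y, inn α W τ y * f y)
      ((1 / lam α t ^ 3) * ((∫ y, resid α W Wt t y * f y)
        + ∫ y, (inn α W t y * (deriv (deriv (deriv f)) y - deriv f y
          - (2 * α + 1) * rho α t * Lam f y) + inn α W t y ^ 5 * deriv f y)))
      (Set.Icc t1 t2) t := by
  have htp : 0 < t := lt_of_lt_of_le ht1 ht.1
  have hlam : 0 < lam α t := ((hC α h0 h1).1 t htp).2.1
  have hl3 : lam α t ^ 3 ≠ 0 := (pow_pos hlam 3).ne'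
  have h := hW α h0 h1 W Wt t1 t2 ht1 h12 H Ht HT f hf t ht
  refine h.congr_deriv ?_
  have e := (hF α h0 h1 t htp W (H.smooth t ht)).2 (fun k => H.memLp k t ht) f hf
  have p1 : IsE (fun y => inn α Wt t y * f y) := we_PE hE (we_inn_P Ht ht) hf
  have p2 : IsE (fun y => inn α (fun t x => deriv (flux (W t)) x) t y * f y) :=
    we_PE hE (we_inn_P (we_hinf_dflux H) ht) hf
  have e2 : (∫ y, resid α W Wt t y * f y)
      = lam α t ^ 3 * (∫ y, inn α Wt t y * f y)
        + lam α t ^ 3 * ∫ y, inn α (fun t x => deriv (flux (W t)) x) t y * f y := by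
    rw [← integral_const_mul, ← integral_const_mul, ← we_iadd hE (we_smulE hE _ p1)
      (we_smulE hE _ p2)]
    congr 1
    funext y
    unfold resid
    rw [we_inn_add α Wt (fun t x => deriv (flux (W t)) x) t y]
    ring
  rw [← we_flux_val hE (we_inn_P H ht) hf α (rho α t), e2, e]
  field_simp
  ring

/-- Coefficient functions of the tangent vectors. -/
theorem we_coefA {α : ℝ} {Z : ℝ → ℝ} (hE : S_ECL1) (hA : ∀ ρ, IsE (tauA α Z ρ)) :
    IsE (fun y => kap α * (y * deriv Z y)) := by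
  refine we_congrE (we_Esub hE (hA 1) (hA 0)) ?_
  intro y
  unfold tauA
  ring

theorem we_coefB1 {α : ℝ} {Z V2 : ℝ → ℝ} (hE : S_ECL1) (hB : ∀ ρ, IsE (tauB α Z V2 ρ)) :
    IsE (fun y => kap α * deriv Z y) := by
  refine we_congrE (we_smulE hE (1/2) (we_Esub hE (hB 1) (hB (-1)))) ?_
  intro y
  unfold tauB
  ring

theorem we_coefB2 {α : ℝ} {Z V2 : ℝ → ℝ} (hE : S_ECL1) (hB : ∀ ρ, IsE (tauB α Z V2 ρ)) :
    IsE (fun y => deriv V2 y - cc α * Z y) := by
  refine we_congrE (we_Esub hE (we_smulE hE (1/2) (we_Eadd hE (hB 1) (hB (-1)))) (hB 0)) ?_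
  intro y
  unfold tauB
  ring

theorem we_intA {α : ℝ} {Z f : ℝ → ℝ} (hQ : S_QF) (hE : S_ECL1) (hA : ∀ ρ, IsE (tauA α Z ρ))
    (hf : IsE f) (ρ : ℝ) : (∫ y, tauA α Z ρ y * f y)
      = (∫ y, Lam Q y * f y) + ρ * ∫ y, (kap α * (y * deriv Z y)) * f y := by
  have a1 : IsE (fun y => Lam Q y * f y) := we_PE hE (we_EP hE (we_Lam_E hE (we_Q hQ))) hf
  have a2 : IsE (fun y => (kap α * (y * deriv Z y)) * f y) :=
    we_PE hE (we_EP hE (we_coefA hE hA)) hf
  rw [← integral_const_mul, ← we_iadd hE a1 (we_smulE hE ρ a2)]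
  congr 1
  funext y
  unfold tauA
  ring

theorem we_intB {α : ℝ} {Z V2 f : ℝ → ℝ} (hQ : S_QF) (hE : S_ECL1)
    (hB : ∀ ρ, IsE (tauB α Z V2 ρ)) (hf : IsE f) (ρ : ℝ) : (∫ y, tauB α Z V2 ρ y * f y)
      = (∫ y, deriv Q y * f y) + ρ * (∫ y, (kap α * deriv Z y) * f y)
        + ρ ^ 2 * ∫ y, (deriv V2 y - cc α * Z y) * f y := by
  have a1 : IsE (fun y => deriv Q y * f y) := we_PE hE (we_EP hE (we_dE hE (we_Q hQ))) hf
  have a2 : IsE (fun y => (kap α * deriv Z y) * f y) :=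
    we_PE hE (we_EP hE (we_coefB1 hE hB)) hf
  have a3 : IsE (fun y => (deriv V2 y - cc α * Z y) * f y) :=
    we_PE hE (we_EP hE (we_coefB2 hE hB)) hf
  rw [← integral_const_mul, ← integral_const_mul, ← we_iadd hE a1 (we_smulE hE ρ a2),
    ← we_iadd hE (we_Eadd hE a1 (we_smulE hE ρ a2)) (we_smulE hE (ρ ^ 2) a3)]
  congr 1
  funext y
  unfold tauB
  ring

/-- `∫ tauA G = - ∫ srcA f - 2 ∫ tauB f - (5/2)(2α+1)ρ ∫ tauA f + ∫ D tauA f`. -/
theorem we_srcA {α : ℝ} {Z V2 v f : ℝ → ℝ} (hE : S_ECL1) (hA : ∀ ρ, IsE (tauA α Z ρ))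
    (hB : ∀ ρ, IsE (tauB α Z V2 ρ)) (hv : IsP v) (hf : IsE f) (ρ : ℝ) :
    (∫ y, tauA α Z ρ y * WeG α ρ v f y)
      = -(∫ y, srcA α Z V2 v ρ y * f y) - 2 * (∫ y, tauB α Z V2 ρ y * f y)
        - (5 / 2) * (2 * α + 1) * ρ * (∫ y, tauA α Z ρ y * f y)
        + 2 * α * ρ ^ 2 * ∫ y, (kap α * (y * deriv Z y)) * f y := by
  have hD : IsE (fun y => 2 * α * ρ ^ 2 * kap α * (y * deriv Z y)) := by
    refine we_congrE (we_smulE hE (2 * α * ρ ^ 2) (we_coefA hE hA)) ?_
    intro y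
    ring
  have h := we_pair_tau hE hv (hA ρ) hf hD α ρ
  have e1 : (∫ y, 2 * α * ρ ^ 2 * kap α * (y * deriv Z y) * f y)
      = 2 * α * ρ ^ 2 * ∫ y, (kap α * (y * deriv Z y)) * f y := by
    rw [← integral_const_mul]
    congr 1
    funext y
    ring
  have c1 : IsE (fun y => calL α ρ v (tauA α Z ρ)
      (fun y => 2 * α * ρ ^ 2 * kap α * (y * deriv Z y)) y * f y) :=
    we_PE hE (we_EP hE (we_calL_E hE hv (hA ρ) α ρ hD)) hf
  have c2 : IsE (fun y => tauB α Z V2 ρ y * f y) := we_PE hE (we_EP hE (hB ρ)) hf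
  have c3 : IsE (fun y => tauA α Z ρ y * f y) := we_PE hE (we_EP hE (hA ρ)) hf
  have e2 : (∫ y, srcA α Z V2 v ρ y * f y)
      = (∫ y, calL α ρ v (tauA α Z ρ)
          (fun y => 2 * α * ρ ^ 2 * kap α * (y * deriv Z y)) y * f y)
        - 2 * (∫ y, tauB α Z V2 ρ y * f y)
        - (5 / 2) * (2 * α + 1) * ρ * (∫ y, tauA α Z ρ y * f y) := by
    rw [← integral_const_mul, ← integral_const_mul, ← we_isub hE c1 (we_smulE hE _ c2),
      ← we_isub hE (we_Esub hE c1 (we_smulE hE _ c2)) (we_smulE hE _ c3)]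
    congr 1
    funext y
    unfold srcA
    ring
  rw [h, e1, e2]
  ring

theorem we_srcB {α : ℝ} {Z V2 v f : ℝ → ℝ} (hE : S_ECL1) (hA : ∀ ρ, IsE (tauA α Z ρ))
    (hB : ∀ ρ, IsE (tauB α Z V2 ρ)) (hv : IsP v) (hf : IsE f) (ρ : ℝ) :
    (∫ y, tauB α Z V2 ρ y * WeG α ρ v f y)
      = -(∫ y, srcB α Z V2 v ρ y * f y) - (2 * α + 1) * ρ * (∫ y, tauB α Z V2 ρ y * f y)
        + (4 / IQ) * cc α * ρ ^ 2 * (∫ y, tauA α Z ρ y * f y)
        + (2 * α * ρ ^ 2 * (∫ y, (kap α * deriv Z y) * f y)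
          + 4 * α * ρ ^ 3 * ∫ y, (deriv V2 y - cc α * Z y) * f y) := by
  have b1 := we_coefB1 hE hB
  have b2 := we_coefB2 hE hB
  have hD : IsE (fun y => 2 * α * ρ ^ 2 * kap α * deriv Z y
        + 4 * α * ρ ^ 3 * (deriv V2 y - cc α * Z y)) := by
    refine we_congrE (we_Eadd hE (we_smulE hE (2 * α * ρ ^ 2) b1)
      (we_smulE hE (4 * α * ρ ^ 3) b2)) ?_
    intro y
    ring
  have h := we_pair_tau hE hv (hB ρ) hf hD α ρ
  have d1 : IsE (fun y => (kap α * deriv Z y) * f y) := we_PE hE (we_EP hE b1) hf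
  have d2 : IsE (fun y => (deriv V2 y - cc α * Z y) * f y) := we_PE hE (we_EP hE b2) hf
  have e1 : (∫ y, (2 * α * ρ ^ 2 * kap α * deriv Z y
        + 4 * α * ρ ^ 3 * (deriv V2 y - cc α * Z y)) * f y)
      = 2 * α * ρ ^ 2 * (∫ y, (kap α * deriv Z y) * f y)
          + 4 * α * ρ ^ 3 * ∫ y, (deriv V2 y - cc α * Z y) * f y := by
    rw [← integral_const_mul, ← integral_const_mul, ← we_iadd hE (we_smulE hE _ d1)
      (we_smulE hE _ d2)]
    congr 1
    funext y
    ring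
  have c1 : IsE (fun y => calL α ρ v (tauB α Z V2 ρ)
      (fun y => 2 * α * ρ ^ 2 * kap α * deriv Z y
        + 4 * α * ρ ^ 3 * (deriv V2 y - cc α * Z y)) y * f y) :=
    we_PE hE (we_EP hE (we_calL_E hE hv (hB ρ) α ρ hD)) hf
  have c2 : IsE (fun y => tauB α Z V2 ρ y * f y) := we_PE hE (we_EP hE (hB ρ)) hf
  have c3 : IsE (fun y => tauA α Z ρ y * f y) := we_PE hE (we_EP hE (hA ρ)) hf
  have e2 : (∫ y, srcB α Z V2 v ρ y * f y)
      = (∫ y, calL α ρ v (tauB α Z V2 ρ)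
          (fun y => 2 * α * ρ ^ 2 * kap α * deriv Z y
            + 4 * α * ρ ^ 3 * (deriv V2 y - cc α * Z y)) y * f y)
        - (2 * α + 1) * ρ * (∫ y, tauB α Z V2 ρ y * f y)
        + (4 / IQ) * cc α * ρ ^ 2 * (∫ y, tauA α Z ρ y * f y) := by
    rw [← integral_const_mul, ← integral_const_mul, ← we_isub hE c1 (we_smulE hE _ c2),
      ← we_iadd hE (we_Esub hE c1 (we_smulE hE _ c2)) (we_smulE hE _ c3)]
    congr 1
    funext y
    unfold srcB
    ring
  rw [h, e1, e2]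
  ring

/-- **WEAKE.** -/
theorem thm_WEAKE (hQ : S_QF) (hE : S_ECL1) (hC : S_CURVE) (hT : S_TAUB) (hW : S_WEAK)
    (hF : S_FLUXP) : S_WEAKE := by
  intro α N0 K T C n Z Y V2 W Wt r r' h0 h1 hTp hZ hY hV hBg u t1 t2 ht1 h12 h2T hu a b a' b'
    hab f hf t ht
  obtain ⟨hABT, -⟩ := hT α Z Y V2 hZ hY hV
  have hA : ∀ ρ, IsE (tauA α Z ρ) := fun ρ => (hABT ρ).1
  have hB : ∀ ρ, IsE (tauB α Z V2 ρ) := fun ρ => (hABT ρ).2.1
  obtain ⟨HW, HWt, HWT⟩ := hBg.hinf t1 t2 ht1 h12.le h2T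
  have htp : 0 < t := lt_of_lt_of_le ht1 ht.1
  obtain ⟨-, hlam, -, -, -, -, -, hrho⟩ := (hC α h0 h1).1 t htp
  have hl3 : lam α t ^ 3 ≠ 0 := (pow_pos hlam 3).ne'
  have hU := we_inn_P (α := α) hu.hinf ht
  have hv := we_inn_P (α := α) HW ht
  -- the integral as a combination
  have hform : ∀ τ ∈ Set.Icc t1 t2, (∫ y, etaI α Z V2 u W a b τ y * f y)
      = (∫ y, inn α u τ y * f y) - (∫ y, inn α W τ y * f y)
        - a τ * ((∫ y, Lam Q y * f y) + rho α τ * ∫ y, (kap α * (y * deriv Z y)) * f y)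
        - b τ * ((∫ y, deriv Q y * f y) + rho α τ * (∫ y, (kap α * deriv Z y) * f y)
          + rho α τ ^ 2 * ∫ y, (deriv V2 y - cc α * Z y) * f y) := by
    intro τ hτ
    have c1 : IsE (fun y => inn α u τ y * f y) := we_PE hE (we_inn_P hu.hinf hτ) hf
    have c2 : IsE (fun y => inn α W τ y * f y) := we_PE hE (we_inn_P HW hτ) hf
    have c3 : IsE (fun y => tauA α Z (rho α τ) y * f y) := we_PE hE (we_EP hE (hA _)) hf
    have c4 : IsE (fun y => tauB α Z V2 (rho α τ) y * f y) := we_PE hE (we_EP hE (hB _)) hf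
    rw [← we_intA hQ hE hA hf, ← we_intB hQ hE hB hf, ← integral_const_mul,
      ← integral_const_mul, ← we_isub hE c1 c2,
      ← we_isub hE (we_Esub hE c1 c2) (we_smulE hE _ c3),
      ← we_isub hE (we_Esub hE (we_Esub hE c1 c2) (we_smulE hE _ c3)) (we_smulE hE _ c4)]
    congr 1
    funext y
    unfold etaI
    ring
  -- derivative of the combination
  have dU := we_Du hE hC hW hF h0 h1 ht1 h12 hu hf ht
  have dW := we_DW hE hC hW hF h0 h1 ht1 h12 HW HWt HWT hf ht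
  have dr : HasDerivWithinAt (rho α) (2 * α * rho α t ^ 2 / lam α t ^ 3) (Set.Icc t1 t2) t :=
    hrho.hasDerivWithinAt
  obtain ⟨da, db⟩ := hab t ht
  have dA := da.mul ((dr.mul_const (∫ y, (kap α * (y * deriv Z y)) * f y)).const_add
    (∫ y, Lam Q y * f y))
  have dB := db.mul (((dr.mul_const (∫ y, (kap α * deriv Z y) * f y)).const_add
    (∫ y, deriv Q y * f y)).add ((dr.fun_pow 2).mul_const
      (∫ y, (deriv V2 y - cc α * Z y) * f y)))
  have dall := ((dU.sub dW).sub dA).sub dB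
  refine (dall.congr_of_mem (f₁ := fun τ => ∫ y, etaI α Z V2 u W a b τ y * f y)
    hform ht).congr_deriv ?_
  have q1 : IsE (fun y => etaI α Z V2 u W a b t y
      * WeG α (rho α t) (inn α W t) f y) := by
    refine we_PE hE ?_ (we_G_E hE hv hf α (rho α t))
    exact we_Psub hE (we_Psub hE (we_Psub hE hU hv) (we_smulP hE _ (we_EP hE (hA _))))
      (we_smulP hE _ (we_EP hE (hB _)))
  have q2 : IsE (fun y => tauA α Z (rho α t) y * WeG α (rho α t) (inn α W t) f y) :=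
    we_PE hE (we_EP hE (hA _)) (we_G_E hE hv hf α (rho α t))
  have q3 : IsE (fun y => tauB α Z V2 (rho α t) y * WeG α (rho α t) (inn α W t) f y) :=
    we_PE hE (we_EP hE (hB _)) (we_G_E hE hv hf α (rho α t))
  have q4 : IsE (fun y => (inn α u t y ^ 5 - inn α W t y ^ 5
              - 5 * inn α W t y ^ 4 * (inn α u t y - inn α W t y)) * deriv f y) := by
    refine we_PE hE ?_ (we_dE hE hf)
    exact we_Psub hE (we_Psub hE (we_Ppow hE hU 5) (we_Ppow hE hv 5))
      (we_PP hE (we_smulP hE 5 (we_Ppow hE hv 4)) (we_Psub hE hU hv))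
  have g0 : IsE (fun y => deriv (deriv (deriv f)) y - deriv f y
          - (2 * α + 1) * rho α t * Lam f y) :=
    we_Esub hE (we_Esub hE (we_dE hE (we_dE hE (we_dE hE hf))) (we_dE hE hf))
      (we_smulE hE _ (we_Lam_E hE hf))
  have q5 : IsE (fun y => inn α u t y * (deriv (deriv (deriv f)) y - deriv f y
          - (2 * α + 1) * rho α t * Lam f y) + inn α u t y ^ 5 * deriv f y) :=
    we_Eadd hE (we_PE hE hU g0) (we_PE hE (we_Ppow hE hU 5) (we_dE hE hf))
  have q6 : IsE (fun y => inn α W t y * (deriv (deriv (deriv f)) y - deriv f y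
          - (2 * α + 1) * rho α t * Lam f y) + inn α W t y ^ 5 * deriv f y) :=
    we_Eadd hE (we_PE hE hv g0) (we_PE hE (we_Ppow hE hv 5) (we_dE hE hf))
  have key : (∫ y, (inn α u t y * (deriv (deriv (deriv f)) y - deriv f y
          - (2 * α + 1) * rho α t * Lam f y) + inn α u t y ^ 5 * deriv f y))
      - (∫ y, (inn α W t y * (deriv (deriv (deriv f)) y - deriv f y
          - (2 * α + 1) * rho α t * Lam f y) + inn α W t y ^ 5 * deriv f y))
      = (∫ y, etaI α Z V2 u W a b t y * WeG α (rho α t) (inn α W t) f y)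
        + a t * (∫ y, tauA α Z (rho α t) y * WeG α (rho α t) (inn α W t) f y)
        + b t * (∫ y, tauB α Z V2 (rho α t) y * WeG α (rho α t) (inn α W t) f y)
        + ∫ y, (inn α u t y ^ 5 - inn α W t y ^ 5
              - 5 * inn α W t y ^ 4 * (inn α u t y - inn α W t y)) * deriv f y := by
    rw [← we_isub hE q5 q6, ← integral_const_mul, ← integral_const_mul,
      ← we_iadd hE q1 (we_smulE hE _ q2),
      ← we_iadd hE (we_Eadd hE q1 (we_smulE hE _ q2)) (we_smulE hE _ q3),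
      ← we_iadd hE (we_Eadd hE (we_Eadd hE q1 (we_smulE hE _ q2)) (we_smulE hE _ q3)) q4]
    congr 1
    funext y
    unfold etaI WeG
    ring
  have kA := we_srcA hE hA hB hv hf (rho α t)
  have kB := we_srcB hE hA hB hv hf (rho α t)
  rw [kA, kB] at key
  have iA := we_intA hQ hE hA hf (rho α t)
  have iB := we_intB hQ hE hB hf (rho α t)
  have eG : (∫ y, etaI α Z V2 u W a b t y * (deriv (deriv (deriv f)) y - deriv f y
              + 5 * inn α W t y ^ 4 * deriv f y - (2 * α + 1) * rho α t * Lam f y))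
      = ∫ y, etaI α Z V2 u W a b t y * WeG α (rho α t) (inn α W t) f y := rfl
  rw [eG]
  unfold AA BB
  have key2 := sub_eq_iff_eq_add.mp key
  simp only [Pi.add_apply]
  rw [key2, ← iA, ← iB]
  simp only [Nat.cast_ofNat, Nat.add_one_sub_one, pow_one]
  field_simp
  ring

end Pool.Agent.Helper33.KV
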